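import Pool.Agent.W989.ES.Poi5
import Pool.Agent.W999.ES.Defs

/-!
# The Poincare inequality for matroid bases: statement of the project ES of helper999
-/

set_option autoImplicit false

namespace Pool.Agent.W989.ES

open Finset

theorem poi : Pool.Agent.W999.ES.S_POI := by
  intro n r F _ hk hE f hf
  have h := poincare (F := F) (fun A hA B hB a ha => hE A hA B hB a ha) (fun A hA => hk A hA) f
  rw [hf] at h
  have h0 : 0 ≤ ∑ B ∈ F, f B ^ 2 := sum_nonneg fun _ _ => sq_nonneg _
  simp only [ne_eq, OfNat.ofNat_ne_zero, not_false_eq_true, zero_pow, zero_div, sub_zero] at h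
  linarith

end Pool.Agent.W989.ES
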