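import Pool.Agent.W999.ES.Defs
import Pool.Agent.W368.SpxPolyFns
import Pool.Agent.W29.SpxPolyKs
import Pool.Agent.H671R2.PolyAuto

/-! ES-PQ: the parameters and the tests are polynomial-time computable. -/

set_option autoImplicit false

namespace Pool.Agent.W989.ESPQ

open Pool.Agent.NPC Pool.Agent.W960 Pool.Agent.W999.ES

variable {α β : Type} [TEnc α] [TEnc β]

theorem hks : Pool.Agent.W368.PolyKs := fun _ _ _ _ _ hR hk hi =>
  Pool.Agent.NPC.W29Ks.poly_ks hR hk hi

omit [TEnc β] in
theorem eraseIdx_key : ∀ (l : List β) (n k : ℕ),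
    (((l.zipIdx k).filter (fun p => decide (p.2 ≠ n + k))).map (fun p => p.1)) = l.eraseIdx n := by
  intro l
  induction l with
  | nil => intro n k; simp
  | cons b l ih =>
    intro n k
    rw [List.zipIdx_cons, List.filter_cons]
    cases n with
    | zero =>
      simp only [Nat.zero_add, ne_eq, not_true_eq_false, decide_false, Bool.false_eq_true, if_false,
        List.eraseIdx_cons_zero]
      have h1 : (l.zipIdx (k + 1)).filter (fun p => decide (¬ p.2 = k)) = l.zipIdx (k + 1) := by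
        rw [List.filter_eq_self]
        rintro ⟨x, i⟩ hx
        have := List.le_snd_of_mem_zipIdx hx
        simp only [decide_eq_true_eq]
        simp only at this
        omega
      rw [h1]
      have h2 : ∀ (l : List β) (k : ℕ), (l.zipIdx k).map (fun p => p.1) = l := by
        intro l
        induction l with
        | nil => intro k; rfl
        | cons b l ih => intro k; rw [List.zipIdx_cons, List.map_cons, ih]
      exact h2 l (k + 1)
    | succ n =>
      have hne : k ≠ n + 1 + k := by omega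
      have h := ih n (k + 1)
      rw [show n + (k + 1) = n + 1 + k by omega] at h
      simp only [ne_eq, hne, not_false_eq_true, decide_true, if_true, List.map_cons,
        List.eraseIdx_cons_succ]
      rw [← h]

theorem poly_eraseIdx {l : α → List β} {n : α → ℕ} (hl : NPC.Poly l) (hn : NPC.Poly n) :
    NPC.Poly (fun a => (l a).eraseIdx (n a)) := by
  have h1 : NPC.Poly (fun a => ((l a).zipIdx.filter (fun p => decide (p.2 ≠ n a))).map
      (fun p => p.1)) :=
    NPC.Poly.map (F := fun _ (p : β × ℕ) => p.1)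
      (NPC.Poly.filter (p := fun a (p : β × ℕ) => decide (p.2 ≠ n a)) (NPC.Poly.zipIdx hl)
        (NPC.Poly.decide_not (p := fun x : α × (β × ℕ) => x.2.2 = n x.1)
          (NPC.Poly.decide_eq (NPC.Poly.snd (NPC.Poly.snd NPC.Poly.id))
            (hn.comp (NPC.Poly.fst NPC.Poly.id)))))
      (NPC.Poly.fst (NPC.Poly.snd NPC.Poly.id))
  exact h1.congr fun a => eraseIdx_key (l a) (n a) 0

theorem poly_coef {τ σ : α → List ℕ} (hτ : NPC.Poly τ) (hσ : NPC.Poly σ) :
    NPC.Poly (fun a => coef (τ a) (σ a)) := by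
  refine NPC.Poly.isum (NPC.Poly.map (l := fun a => List.range (σ a).length)
    (F := fun a i => if (σ a).eraseIdx i = τ a then (if i % 2 = 0 then (1 : ℤ) else -1) else 0)
    (NPC.Poly.range_length hσ) ?_)
  refine NPC.Poly.ite (p := fun x : α × ℕ => (σ x.1).eraseIdx x.2 = τ x.1)
    (NPC.Poly.decide_eq (poly_eraseIdx (hσ.comp (NPC.Poly.fst NPC.Poly.id))
      (NPC.Poly.snd NPC.Poly.id)) (hτ.comp (NPC.Poly.fst NPC.Poly.id))) ?_ (NPC.Poly.const 0)
  exact NPC.Poly.ite (p := fun x : α × ℕ => x.2 % 2 = 0)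
    (NPC.Poly.decide_eq (NPC.Poly.mod (NPC.Poly.snd NPC.Poly.id) (NPC.Poly.const 2))
      (NPC.Poly.const 0)) (NPC.Poly.const 1) (NPC.Poly.const (-1))

theorem max_le_sum (l : List ℕ) : l.foldr max 0 ≤ l.sum := by
  induction l with
  | nil => simp
  | cons a l ih =>
    rw [List.foldr_cons, List.sum_cons]
    exact max_le (Nat.le_add_right _ _) (ih.trans (Nat.le_add_left _ _))

theorem poly_listMax {l : α → List ℕ} (hl : NPC.Poly l) :
    NPC.Poly (fun a => (l a).foldr max 0) := by
  obtain ⟨r, hr⟩ := (NPC.Poly.sum hl).sz_le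
  refine NPC.Poly.foldr (s := fun _ => 0) (F := fun _ x s => max x s) hl (NPC.Poly.const 0)
    (NPC.Poly.max (NPC.Poly.fst (NPC.Poly.snd NPC.Poly.id))
      (NPC.Poly.snd (NPC.Poly.snd NPC.Poly.id))) (Polynomial.C 2 * r) ?_
  intro a k _
  have h1 : ((l a).drop k).foldr max 0 ≤ (l a).sum := by
    refine (max_le_sum _).trans ?_
    conv_rhs => rw [← List.take_append_drop k (l a), List.sum_append]
    exact Nat.le_add_left _ _
  have h2 := sz_nat_mono_le h1
  have h3 := hr a
  have h4 : sz (((l a).drop k).foldr (fun x s => max x s) 0) = sz (((l a).drop k).foldr max 0) := rfl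
  simp only [Polynomial.eval_mul, Polynomial.eval_C]
  omega

theorem poly_top {Δ : α → List (List ℕ)} (h : NPC.Poly Δ) : NPC.Poly (fun a => top (Δ a)) :=
  poly_listMax (NPC.Poly.map (F := fun _ σ => List.length σ) h
    (NPC.Poly.length (NPC.Poly.snd NPC.Poly.id)))

theorem poly_tops {Δ : α → List (List ℕ)} (h : NPC.Poly Δ) : NPC.Poly (fun a => tops (Δ a)) :=
  NPC.Poly.filter (p := fun a (σ : List ℕ) => decide (σ.length = top (Δ a))) h
    (NPC.Poly.decide_eq (NPC.Poly.length (NPC.Poly.snd NPC.Poly.id))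
      ((poly_top h).comp (NPC.Poly.fst NPC.Poly.id)))

theorem poly_ridges {Δ : α → List (List ℕ)} (h : NPC.Poly Δ) :
    NPC.Poly (fun a => ridges (Δ a)) :=
  NPC.Poly.filter (p := fun a (σ : List ℕ) => decide (σ.length + 1 = top (Δ a))) h
    (NPC.Poly.decide_eq (NPC.Poly.succ (NPC.Poly.length (NPC.Poly.snd NPC.Poly.id)))
      ((poly_top h).comp (NPC.Poly.fst NPC.Poly.id)))

theorem poly_pick {b : α → List Bool} {l : α → List (List ℕ)} (hb : NPC.Poly b)
    (hl : NPC.Poly l) : NPC.Poly (fun a => pick (b a) (l a)) :=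
  NPC.Poly.map (F := fun _ (p : Bool × List ℕ) => p.2)
    (NPC.Poly.filter (p := fun _ (p : Bool × List ℕ) => p.1) (NPC.Poly.zip hb hl)
      (NPC.Poly.fst (NPC.Poly.snd NPC.Poly.id)))
    (NPC.Poly.snd (NPC.Poly.snd NPC.Poly.id))

theorem poly_rowsOf {Δ S : α → List (List ℕ)} (h : NPC.Poly Δ) (hS : NPC.Poly S) :
    NPC.Poly (fun a => rowsOf (Δ a) (S a)) :=
  NPC.Poly.map (F := fun a (τ : List ℕ) => (S a).map (fun σ => coef τ σ)) (poly_ridges h)
    (NPC.Poly.map (l := fun x : α × List ℕ => S x.1) (F := fun x σ => coef x.2 σ)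
      (hS.comp (NPC.Poly.fst NPC.Poly.id))
      (poly_coef (NPC.Poly.snd (NPC.Poly.fst NPC.Poly.id)) (NPC.Poly.snd NPC.Poly.id)))

theorem poly_indepL {Δ S : α → List (List ℕ)} (h : NPC.Poly Δ) (hS : NPC.Poly S) :
    NPC.Poly (fun a => indepL (Δ a) (S a)) := by
  refine NPC.Poly.all (l := fun a => List.range (S a).length)
    (p := fun a j => !(HF (rowsOf (Δ a) (S a)) [] (eL (S a).length j)).isSome)
    (NPC.Poly.range_length hS) (NPC.Poly.not (NPC.Poly.isSome ?_))
  exact Pool.Agent.W368.poly_HF hks (α := α × ℕ) (E := fun x => rowsOf (Δ x.1) (S x.1))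
    (K := fun _ => []) (g := fun x => eL (S x.1).length x.2)
    ((poly_rowsOf h hS).comp (NPC.Poly.fst NPC.Poly.id)) (NPC.Poly.const [])
    (Pool.Agent.W368.poly_eL ((UPoly.length hS).comp (NPC.Poly.fst NPC.Poly.id))
      (NPC.Poly.snd NPC.Poly.id))

/-- the state of the greedy algorithm -/
def gF (Δ : List (List ℕ)) (s : List Bool × List (List ℕ)) (σ : List ℕ) :
    List Bool × List (List ℕ) :=
  if indepL Δ (s.2 ++ [σ]) = true then (s.1 ++ [true], s.2 ++ [σ]) else (s.1 ++ [false], s.2)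

theorem gF_sz (Δ : List (List ℕ)) (s : List Bool × List (List ℕ)) (σ : List ℕ) :
    sz (gF Δ s σ) ≤ sz s + sz σ + 10 := by
  unfold gF
  have h1 := sz_append s.1 [true]
  have h2 := sz_append s.1 [false]
  have h3 := sz_append s.2 [σ]
  have h4 : sz [true] ≤ 5 := by simp
  have h5 : sz [false] ≤ 5 := by simp
  have h6 : sz [σ] = sz σ + 2 := by simp
  have h7 : sz s = sz s.1 + sz s.2 + 1 := sz_pair s.1 s.2
  split_ifs
  · simp only [sz_pair]
    omega
  · simp only [sz_pair]
    omega

theorem gF_foldl (Δ : List (List ℕ)) : ∀ (l : List (List ℕ)) (s : List Bool × List (List ℕ)),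
    sz (l.foldl (gF Δ) s) ≤ sz s + 10 * sz l := by
  intro l
  induction l with
  | nil => intro s; simp
  | cons σ l ih =>
    intro s
    have h1 := ih (gF Δ s σ)
    have h2 := gF_sz Δ s σ
    have h3 : sz (σ :: l) = sz σ + sz l + 1 := by simp
    rw [List.foldl_cons]
    omega

theorem poly_greedy : NPC.Poly Pool.Agent.W999.ES.greedy := by
  have hF : NPC.Poly (fun p : List (List ℕ) × ((List Bool × List (List ℕ)) × List ℕ) =>
      gF p.1 p.2.1 p.2.2) := by
    have e1 : NPC.Poly (fun p : List (List ℕ) × ((List Bool × List (List ℕ)) × List ℕ) => p.1) :=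
      NPC.Poly.fst NPC.Poly.id
    have e2 : NPC.Poly (fun p : List (List ℕ) × ((List Bool × List (List ℕ)) × List ℕ) =>
        p.2.1.1) := NPC.Poly.fst (NPC.Poly.fst (NPC.Poly.snd NPC.Poly.id))
    have e3 : NPC.Poly (fun p : List (List ℕ) × ((List Bool × List (List ℕ)) × List ℕ) =>
        p.2.1.2) := NPC.Poly.snd (NPC.Poly.fst (NPC.Poly.snd NPC.Poly.id))
    have e4 : NPC.Poly (fun p : List (List ℕ) × ((List Bool × List (List ℕ)) × List ℕ) =>
        p.2.2) := NPC.Poly.snd (NPC.Poly.snd NPC.Poly.id)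
    have e5 : NPC.Poly (fun p : List (List ℕ) × ((List Bool × List (List ℕ)) × List ℕ) =>
        p.2.1.2 ++ [p.2.2]) := NPC.Poly.append e3 (NPC.Poly.cons e4 (NPC.Poly.const []))
    refine NPC.Poly.ite (p := fun p : List (List ℕ) × ((List Bool × List (List ℕ)) × List ℕ) =>
      indepL p.1 (p.2.1.2 ++ [p.2.2]) = true) (NPC.Poly.decide_bool (poly_indepL e1 e5)) ?_ ?_
    · exact NPC.Poly.pair (NPC.Poly.append e2 (NPC.Poly.const [true])) e5
    · exact NPC.Poly.pair (NPC.Poly.append e2 (NPC.Poly.const [false])) e3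
  obtain ⟨r, hr⟩ := (poly_tops (α := List (List ℕ)) NPC.Poly.id).sz_le
  have h := NPC.Poly.foldl (l := fun Δ : List (List ℕ) => tops Δ)
    (s := fun _ => (([], []) : List Bool × List (List ℕ))) (F := fun Δ s σ => gF Δ s σ)
    (poly_tops NPC.Poly.id) (NPC.Poly.const _) hF
    (Polynomial.C (sz (([], []) : List Bool × List (List ℕ))) + Polynomial.C 10 * r) (by
      intro Δ k _
      have h1 := gF_foldl Δ ((tops Δ).take k) ([], [])
      have h2 := NPC.Poly.sz_take_le (tops Δ) k
      have h3 := hr Δ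
      simp only [Polynomial.eval_add, Polynomial.eval_mul, Polynomial.eval_C]
      refine h1.trans ?_
      exact Nat.add_le_add_left (Nat.mul_le_mul_left _ (h2.trans h3)) _)
  exact (NPC.Poly.fst h).congr fun Δ => rfl

theorem poly_ones {b : α → List Bool} (hb : NPC.Poly b) : NPC.Poly (fun a => ones (b a)) :=
  NPC.Poly.length (NPC.Poly.filter (p := fun _ (x : Bool) => x) hb (NPC.Poly.snd NPC.Poly.id))

theorem poly_qB : NPC.Poly (fun p : List (List ℕ) × List Bool => qB p.1 p.2) := by
  have e1 : NPC.Poly (fun p : List (List ℕ) × List Bool => p.1) := NPC.Poly.fst NPC.Poly.id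
  have e2 : NPC.Poly (fun p : List (List ℕ) × List Bool => p.2) := NPC.Poly.snd NPC.Poly.id
  refine NPC.Poly.and (NPC.Poly.decide_eq (NPC.Poly.length e2) (NPC.Poly.length (poly_tops e1)))
    (NPC.Poly.and (NPC.Poly.decide_eq (poly_ones e2) (poly_ones (poly_greedy.comp e1)))
      (poly_indepL e1 (poly_pick e2 (poly_tops e1))))

theorem poly_outB : NPC.Poly (fun p : List (List ℕ) × List Bool => outB p.1 p.2) := by
  have e1 : NPC.Poly (fun p : List (List ℕ) × List Bool => p.1) := NPC.Poly.fst NPC.Poly.id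
  have e2 : NPC.Poly (fun p : List (List ℕ) × List Bool => p.2) := NPC.Poly.snd NPC.Poly.id
  refine NPC.Poly.filter (l := fun p : List (List ℕ) × List Bool => p.1)
    (p := fun p (σ : List ℕ) => decide (σ.length < top p.1) || decide (σ ∈ pick p.2 (tops p.1)))
    e1 (NPC.Poly.or ?_ ?_)
  · exact NPC.Poly.decide_lt (NPC.Poly.length (NPC.Poly.snd NPC.Poly.id))
      ((poly_top e1).comp (NPC.Poly.fst NPC.Poly.id))
  · exact (NPC.Poly.decide_mem (NPC.Poly.snd NPC.Poly.id)
      ((poly_pick e2 (poly_tops e1)).comp (NPC.Poly.fst NPC.Poly.id))).congr fun a => by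
        rw [decide_eq_decide]

theorem size_eq (n : ℕ) : n.bits.length = n.size := Nat.size_eq_bits_len n

theorem two_pow_size_le (n : ℕ) : 2 ^ n.size ≤ 2 * n + 1 := by
  rcases Nat.eq_zero_or_pos n with h | h
  · subst h; simp
  · have h1 : 0 < n.size := Nat.size_pos.2 h
    have h2 : 2 ^ (n.size - 1) ≤ n := Nat.lt_size.1 (by omega)
    have h3 : 2 ^ n.size = 2 * 2 ^ (n.size - 1) := by
      rw [← pow_succ']
      congr 1
      omega
    omega

theorem u_tops : UPoly (fun Δ : List (List ℕ) => (tops Δ).length) :=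
  UPoly.length (poly_tops NPC.Poly.id)

theorem u_KK : UPoly KK := by
  have h : UPoly (fun Δ : List (List ℕ) => Δ.length + 1) :=
    UPoly.add (UPoly.length NPC.Poly.id) (UPoly.const 1)
  exact NPC.Poly.congr (UPoly.mul h h) fun Δ => by
    simp only [KK, sq]

theorem u_aa : UPoly aa := by
  have h1 : NPC.Poly (fun Δ : List (List ℕ) => (tops Δ).length) := u_tops.toPoly
  exact NPC.Poly.congr (UPoly.length (NPC.Poly.natBits h1)) fun Δ => by
    simp only [aa, size_eq]

theorem aa_le (Δ : List (List ℕ)) : 2 ^ aa Δ ≤ 2 * (tops Δ).length + 1 := two_pow_size_le _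

theorem poly_two_pow {n : α → ℕ} (hn : UPoly n) : NPC.Poly (fun a => 2 ^ n a) := by
  have h : NPC.Poly (fun a => List.replicate (n a) false ++ [true]) :=
    NPC.Poly.append (Pool.Agent.W368.poly_replicate hn (NPC.Poly.const false))
      (NPC.Poly.const [true])
  refine (NPC.Poly.valBits h).congr fun a => ?_
  rw [valB_replicate_false]
  simp

theorem u_pow : UPoly (fun Δ : List (List ℕ) => 2 ^ aa Δ) :=
  UPoly.of_le (poly_two_pow u_aa)
    (UPoly.add (UPoly.mul (UPoly.const 2) u_tops) (UPoly.const 1)) aa_le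

theorem u_tt : UPoly tt := by
  refine NPC.Poly.congr (UPoly.mul (UPoly.mul (UPoly.const 4) (UPoly.mul u_pow u_pow))
    (UPoly.add u_KK u_tops)) fun Δ => ?_
  have h : 4 ^ aa Δ = 2 ^ aa Δ * 2 ^ aa Δ := by
    rw [← mul_pow]
    norm_num
  simp only [tt, h]

theorem pq : S_PQ := by
  refine ⟨u_tops, u_KK, u_aa, u_tt, ?_, poly_qB, poly_greedy, poly_outB⟩
  obtain ⟨r, hr⟩ := (poly_tops (α := List (List ℕ)) NPC.Poly.id).sz_le
  refine ⟨Polynomial.C 2 * r + Polynomial.C 1, fun Δ => ?_⟩
  have h1 := aa_le Δ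
  have h2 := length_lt_sz (tops Δ)
  have h3 := hr Δ
  simp only [Polynomial.eval_add, Polynomial.eval_mul, Polynomial.eval_C]
  omega

end Pool.Agent.W989.ESPQ
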