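import Pool.Agent.W989.ES.StG

/-!
# The Poincare inequality for matroid bases, part 1: families with the exchange property
-/

set_option autoImplicit false

namespace Pool.Agent.W989.ES

open Finset

variable {E : Type} [DecidableEq E] {F : Finset (Finset E)}

theorem mem_link {z : E} {C : Finset E} :
    C ∈ link F z ↔ ∃ B ∈ F, z ∈ B ∧ B.erase z = C := by
  simp [link, and_assoc]

theorem erase_injOn (F : Finset (Finset E)) (z : E) :
    Set.InjOn (fun A : Finset E => A.erase z) (F.filter (fun A => z ∈ A) : Finset (Finset E)) := by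
  intro A hA B hB h
  simp only [coe_filter, Set.mem_ofPred_eq] at hA hB
  have h' : A.erase z = B.erase z := h
  rw [← insert_erase hA.2, ← insert_erase hB.2, h']

theorem sum_link (F : Finset (Finset E)) (z : E) (ψ : Finset E → ℝ) :
    ∑ C ∈ link F z, ψ C = ∑ B ∈ F.filter (fun A => z ∈ A), ψ (B.erase z) :=
  sum_image (erase_injOn F z)

theorem card_link (F : Finset (Finset E)) (z : E) :
    (link F z).card = (F.filter (fun A => z ∈ A)).card :=
  card_image_of_injOn (erase_injOn F z)

/-- exchanging the order of summation -/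
theorem sum_swap (F : Finset (Finset E)) (φ : Finset E → E → ℝ) :
    ∑ B ∈ F, ∑ x ∈ B, φ B x =
      ∑ x ∈ F.sup id, ∑ B ∈ F.filter (fun A => x ∈ A), φ B x := by
  classical
  simp only [sum_filter]
  rw [sum_comm]
  refine sum_congr rfl fun B hB => ?_
  rw [← sum_filter]
  refine sum_congr ?_ fun _ _ => rfl
  ext x
  simp only [mem_filter, mem_sup, id]
  exact ⟨fun h => ⟨⟨B, hB, h⟩, h⟩, fun h => h.2⟩

theorem exch_link (h : Exch F) (z : E) : Exch (link F z) := by
  intro A hA B hB a ha
  obtain ⟨A', hA', hzA, rfl⟩ := mem_link.1 hA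
  obtain ⟨B', hB', hzB, rfl⟩ := mem_link.1 hB
  simp only [mem_sdiff, mem_erase, not_and] at ha
  obtain ⟨⟨haz, haA⟩, haB⟩ := ha
  have haB' : a ∉ B' := haB haz
  obtain ⟨b, hb, hbF⟩ := h A' hA' B' hB' a (by simp [haA, haB'])
  simp only [mem_sdiff] at hb
  have hbz : b ≠ z := fun hh => hb.2 (hh ▸ hzA)
  refine ⟨b, by simp [hb.1, hbz, hb.2], mem_link.2 ⟨_, hbF, ?_, ?_⟩⟩
  · simp [hzA, Ne.symm haz]
  · ext x
    simp only [mem_erase, mem_insert]
    constructor
    · rintro ⟨hx, h1 | ⟨h1, h2⟩⟩
      · exact Or.inl h1
      · exact Or.inr ⟨h1, hx, h2⟩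
    · rintro (h1 | ⟨h1, h2, h3⟩)
      · subst h1; exact ⟨hbz, Or.inl rfl⟩
      · exact ⟨h2, Or.inr ⟨h1, h3⟩⟩

theorem unif_link {k : ℕ} (h : Unif F (k + 1)) (z : E) : Unif (link F z) k := by
  intro C hC
  obtain ⟨B, hB, hz, rfl⟩ := mem_link.1 hC
  rw [card_erase_of_mem hz, h B hB]
  rfl

/-- If no member contains both `x` and `y` then they can be exchanged. -/
theorem par_exch {k : ℕ} (h : Exch F) (hk : Unif F k) {x y : E} (hy : ∃ C ∈ F, y ∈ C)
    (hxy : ∀ B ∈ F, x ∈ B → y ∉ B) {B : Finset E} (hB : B ∈ F) (hx : x ∈ B) :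
    insert y (B.erase x) ∈ F := by
  -- a member containing `y` closest to `B`
  have key : ∀ n : ℕ, ∀ C ∈ F, y ∈ C → (C \ B).card = n → insert y (B.erase x) ∈ F := by
    intro n
    induction n using Nat.strong_induction_on with
    | _ n ih =>
      intro C hC hyC hn
      have hxC : x ∉ C := fun hh => hxy C hC hh hyC
      have hyB : y ∉ B := hxy B hB hx
      by_cases h1 : ∃ c ∈ C \ B, c ≠ y
      · obtain ⟨c, hc, hcy⟩ := h1
        obtain ⟨b, hb, hbF⟩ := h C hC B hB c hc
        simp only [mem_sdiff] at hc hb
        refine ih _ ?_ _ hbF (by simp [hyC, Ne.symm hcy]) rfl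
        rw [← hn]
        refine card_lt_card (Finset.ssubset_iff_subset_ne.2 ⟨?_, ?_⟩)
        · intro u hu
          simp only [mem_sdiff, mem_insert, mem_erase] at hu ⊢
          obtain ⟨hu, hu2⟩ := hu
          rcases hu with hu | hu
          · subst hu; exact absurd hb.1 hu2
          · exact ⟨hu.2, hu2⟩
        · intro heq
          have : c ∈ C \ B := by simp [hc]
          rw [← heq] at this
          simp only [mem_sdiff, mem_insert, mem_erase, ne_eq, not_true_eq_false, false_and,
            or_false] at this
          exact hb.2 (this.1 ▸ hc.1)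
      · push Not at h1
        have hCB : C \ B = {y} := by
          ext u
          simp only [mem_singleton]
          exact ⟨fun hu => h1 u hu, fun hu => by subst hu; simp [hyC, hyB]⟩
        have hcard : (B \ C).card = (C \ B).card :=
          card_sdiff_comm (by rw [hk B hB, hk C hC])
        rw [hCB, card_singleton] at hcard
        obtain ⟨u, hu⟩ := card_eq_one.1 hcard
        have hxu : x ∈ B \ C := by simp [hx, hxC]
        rw [hu, mem_singleton] at hxu
        subst hxu
        have : insert y (B.erase x) = C := by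
          ext v
          simp only [mem_insert, mem_erase]
          constructor
          · rintro (rfl | ⟨hv, hvB⟩)
            · exact hyC
            · by_contra hvC
              have : v ∈ B \ C := by simp [hvB, hvC]
              rw [hu, mem_singleton] at this
              exact hv this
          · intro hvC
            by_cases hvB : v ∈ B
            · exact Or.inr ⟨fun hh => hxC (hh ▸ hvC), hvB⟩
            · have : v ∈ C \ B := by simp [hvB, hvC]
              rw [hCB, mem_singleton] at this
              exact Or.inl this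
        rw [this]
        exact hC
  obtain ⟨C, hC, hyC⟩ := hy
  exact key _ C hC hyC rfl

end Pool.Agent.W989.ES
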