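import Mathlib

/-!
# The Poincare inequality for matroid bases, part 2: a symmetric matrix with `k A ≤ A ^ 2 ≤ ...`
-/

set_option autoImplicit false

namespace Pool.Agent.W989.ES

open Finset Matrix

variable {V : Type} [Fintype V] [DecidableEq V]

/-- If `k A ≤ A²`, `A ≤ k` and equality holds only for multiples of `u0`, then `A ≤ 0` on the
orthogonal complement of `u0`. -/
theorem neg_of_trickle (A : Matrix V V ℝ) (hA : A.IsHermitian) (k : ℝ) (u0 : V → ℝ)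
    (h1 : ∀ u, k * (u ⬝ᵥ A *ᵥ u) ≤ (A *ᵥ u) ⬝ᵥ (A *ᵥ u))
    (h2 : ∀ u, u ⬝ᵥ A *ᵥ u ≤ k * (u ⬝ᵥ u))
    (h3 : ∀ u, u ⬝ᵥ A *ᵥ u = k * (u ⬝ᵥ u) → ∃ c : ℝ, u = c • u0)
    (u : V → ℝ) (hu : u ⬝ᵥ u0 = 0) : u ⬝ᵥ A *ᵥ u ≤ 0 := by
  set v : V → V → ℝ := fun i => ⇑(hA.eigenvectorBasis i) with hv
  have hAv : ∀ i, A *ᵥ v i = hA.eigenvalues i • v i := fun i => hA.mulVec_eigenvectorBasis i
  have hvv : ∀ i, v i ⬝ᵥ v i = 1 := by
    intro i
    have h := hA.eigenvectorBasis.orthonormal.1 i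
    rw [EuclideanSpace.norm_eq, Real.sqrt_eq_one] at h
    rw [dotProduct, ← h]
    refine Finset.sum_congr rfl fun j _ => ?_
    rw [Real.norm_eq_abs, sq_abs, sq]
  -- expansion
  have hexp : ∀ x y : V → ℝ, x ⬝ᵥ y = ∑ i, (x ⬝ᵥ v i) * (v i ⬝ᵥ y) := by
    intro x y
    have h := hA.eigenvectorBasis.sum_inner_mul_inner (WithLp.toLp 2 x) (WithLp.toLp 2 y)
    have hin : ∀ x y : EuclideanSpace ℝ V, inner ℝ x y = x.ofLp ⬝ᵥ y.ofLp := by
      intro x y
      rw [EuclideanSpace.inner_eq_star_dotProduct, dotProduct_comm]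
      rfl
    simp only [hin] at h
    exact h.symm
  have hsym : ∀ x y : V → ℝ, x ⬝ᵥ A *ᵥ y = (A *ᵥ x) ⬝ᵥ y := by
    intro x y
    have hT : Aᵀ = A := by
      have := hA.eq
      rwa [conjTranspose_eq_transpose_of_trivial] at this
    rw [dotProduct_mulVec, ← mulVec_transpose, hT]
  rw [hexp]
  refine Finset.sum_nonpos fun i _ => ?_
  have e1 : v i ⬝ᵥ A *ᵥ u = hA.eigenvalues i * (v i ⬝ᵥ u) := by
    rw [hsym, hAv, smul_dotProduct, smul_eq_mul]
  rw [e1, dotProduct_comm u]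
  have e2 : v i ⬝ᵥ A *ᵥ v i = hA.eigenvalues i := by
    rw [hAv, dotProduct_smul, hvv, smul_eq_mul, mul_one]
  have e3 := h1 (v i)
  have e4 := h2 (v i)
  rw [e2, hAv, dotProduct_smul, smul_dotProduct, hvv, smul_eq_mul, smul_eq_mul, mul_one] at e3
  rw [e2, hvv, mul_one] at e4
  by_cases h0 : hA.eigenvalues i ≤ 0
  · nlinarith [mul_self_nonneg (v i ⬝ᵥ u)]
  · push Not at h0
    have h5 : k ≤ hA.eigenvalues i := by
      by_contra hlt
      push Not at hlt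
      nlinarith
    have h6 : hA.eigenvalues i = k := le_antisymm e4 h5
    obtain ⟨c, hc⟩ := h3 (v i) (by rw [e2, hvv, h6, mul_one])
    have h7 : v i ⬝ᵥ u = 0 := by
      rw [hc, smul_dotProduct, dotProduct_comm, hu, smul_zero]
    rw [h7]
    simp

end Pool.Agent.W989.ES
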