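import Pool.Agent.W989.ES.Poi1
import Pool.Agent.W989.ES.Poi2

/-!
# The Poincare inequality for matroid bases, part 3: trickling down
-/

set_option autoImplicit false

namespace Pool.Agent.W989.ES

open Finset Matrix

variable {E : Type} [DecidableEq E] {F : Finset (Finset E)}

/-- the quadratic form -/
def QQ (F : Finset (Finset E)) (g : E → ℝ) : ℝ :=
  ∑ B ∈ F, ((∑ x ∈ B, g x) ^ 2 - ∑ x ∈ B, g x ^ 2)

/-- number of members through a point -/
def pp (F : Finset (Finset E)) (z : E) : ℝ := ((F.filter (fun A => z ∈ A)).card : ℝ)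

/-- sum of the values at the other points of members through `z` -/
def aa (F : Finset (Finset E)) (g : E → ℝ) (z : E) : ℝ :=
  ∑ B ∈ F.filter (fun A => z ∈ A), ∑ x ∈ B.erase z, g x

/-- number of members through two points -/
def ww (F : Finset (Finset E)) (z x : E) : ℝ :=
  if x = z then 0 else ((F.filter (fun B => z ∈ B ∧ x ∈ B)).card : ℝ)

theorem ww_comm (z x : E) : ww F z x = ww F x z := by
  unfold ww
  by_cases h : x = z
  · simp [h]
  · rw [if_neg h, if_neg (Ne.symm h)]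
    congr 2
    ext B
    simp [and_comm]

theorem pp_pos {z : E} (hz : z ∈ F.sup id) : 0 < pp F z := by
  simp only [mem_sup, id] at hz
  obtain ⟨B, hB, hzB⟩ := hz
  unfold pp
  exact_mod_cast card_pos.2 ⟨B, by simp [hB, hzB]⟩

theorem sum_pp (g : E → ℝ) : ∑ B ∈ F, ∑ x ∈ B, g x = ∑ z ∈ F.sup id, pp F z * g z := by
  rw [sum_swap]
  refine sum_congr rfl fun z _ => ?_
  rw [sum_const, nsmul_eq_mul, pp]

theorem sum_ww (g : E → ℝ) (z : E) : ∑ x ∈ F.sup id, ww F z x * g x = aa F g z := by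
  have h := sum_swap F (fun B x => if z ∈ B ∧ x ≠ z then g x else 0)
  have h1 : aa F g z = ∑ B ∈ F, ∑ x ∈ B, (if z ∈ B ∧ x ≠ z then g x else 0) := by
    unfold aa
    rw [sum_filter]
    refine sum_congr rfl fun B _ => ?_
    by_cases hz : z ∈ B
    · rw [if_pos hz]
      simp only [hz, true_and]
      rw [← sum_filter]
      refine sum_congr ?_ fun _ _ => rfl
      ext x
      simp [and_comm]
    · rw [if_neg hz]
      simp [hz]
  rw [h1, h]
  refine sum_congr rfl fun x _ => ?_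
  unfold ww
  by_cases hx : x = z
  · simp [hx]
  · simp only [hx, if_false, ne_eq, not_false_eq_true, and_true]
    rw [← sum_filter, sum_const, nsmul_eq_mul, filter_filter]
    congr 3
    ext B
    simp [and_comm]

theorem QQ_eq (g : E → ℝ) : QQ F g = ∑ z ∈ F.sup id, g z * aa F g z := by
  unfold QQ aa
  have h := sum_swap F (fun B z => g z * ∑ x ∈ B.erase z, g x)
  simp only [mul_sum] at h ⊢
  rw [← h]
  refine sum_congr rfl fun B _ => ?_
  rw [sq, sum_mul, ← sum_sub_distrib]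
  refine sum_congr rfl fun z hz => ?_
  rw [← mul_sum, ← add_sum_erase B g hz]
  ring

theorem sum_aa_link (g : E → ℝ) (z : E) : ∑ C ∈ link F z, ∑ x ∈ C, g x = aa F g z :=
  sum_link F z (fun C => ∑ x ∈ C, g x)

theorem sum_QQ_link {k : ℕ} (hk : Unif F (k + 1)) (g : E → ℝ) :
    ∑ z ∈ F.sup id, QQ (link F z) g = (k - 1) * QQ F g := by
  unfold QQ
  have h1 : ∀ z, ∑ B ∈ link F z, ((∑ x ∈ B, g x) ^ 2 - ∑ x ∈ B, g x ^ 2) =
      ∑ B ∈ F.filter (fun A => z ∈ A),
        ((∑ x ∈ B.erase z, g x) ^ 2 - ∑ x ∈ B.erase z, g x ^ 2) := fun z =>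
    sum_link F z (fun B => (∑ x ∈ B, g x) ^ 2 - ∑ x ∈ B, g x ^ 2)
  simp only [h1]
  rw [← sum_swap F (fun B z => (∑ x ∈ B.erase z, g x) ^ 2 - ∑ x ∈ B.erase z, g x ^ 2), mul_sum]
  refine sum_congr rfl fun B hB => ?_
  have h2 : ∀ z ∈ B, (∑ x ∈ B.erase z, g x) ^ 2 - ∑ x ∈ B.erase z, g x ^ 2 =
      (∑ x ∈ B, g x) ^ 2 - ∑ x ∈ B, g x ^ 2 - 2 * (∑ x ∈ B, g x) * g z + 2 * g z ^ 2 := by
    intro z hz
    have e1 := add_sum_erase B g hz
    have e2 := add_sum_erase B (fun x => g x ^ 2) hz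
    rw [← e1, ← e2]
    ring
  rw [sum_congr rfl h2, sum_add_distrib, sum_sub_distrib, sum_const, ← mul_sum, ← mul_sum,
    hk B hB, nsmul_eq_mul]
  push_cast
  ring

theorem QQ_le {k : ℕ} (hk : Unif F (k + 1)) (hk2 : 2 ≤ k) (hL : ∀ z, L2 (link F z) k)
    (g : E → ℝ) : k * QQ F g ≤ ∑ z ∈ F.sup id, aa F g z ^ 2 / pp F z := by
  have hk' : (2 : ℝ) ≤ k := by exact_mod_cast hk2
  have h1 : ∀ z ∈ F.sup id, QQ (link F z) g ≤ (1 - 1 / (k : ℝ)) * (aa F g z ^ 2 / pp F z) := by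
    intro z hz
    have h := hL z g
    have hp := pp_pos hz
    rw [card_link, sum_aa_link (F := F) g z] at h
    change pp F z * _ ≤ pp F z * _ + _ at h
    have e : pp F z * QQ (link F z) g ≤ (1 - 1 / (k : ℝ)) * aa F g z ^ 2 := by
      unfold QQ
      rw [sum_sub_distrib, mul_sub]
      linarith
    rw [← mul_div_assoc, le_div_iff₀ hp, mul_comm]
    exact e
  have h2 := sum_le_sum h1
  rw [sum_QQ_link hk, ← mul_sum] at h2
  have h3 : (1 - 1 / (k : ℝ)) = (k - 1) / k := by field_simp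
  rw [h3, div_mul_eq_mul_div, le_div_iff₀ (by linarith)] at h2
  have h4 : 0 < (k : ℝ) - 1 := by linarith
  nlinarith

theorem QQ_upper {k : ℕ} (hk : Unif F (k + 1)) (g : E → ℝ) :
    k * ∑ z ∈ F.sup id, pp F z * g z ^ 2 - QQ F g =
      (1 / 2) * ∑ B ∈ F, ∑ x ∈ B, ∑ y ∈ B, (g x - g y) ^ 2 := by
  rw [← sum_pp (fun z => g z ^ 2)]
  unfold QQ
  rw [mul_sum, mul_sum, ← sum_sub_distrib]
  refine sum_congr rfl fun B hB => ?_
  have h1 : ∑ x ∈ B, ∑ y ∈ B, (g x - g y) ^ 2 =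
      2 * B.card * ∑ x ∈ B, g x ^ 2 - 2 * (∑ x ∈ B, g x) ^ 2 := by
    have : ∀ x ∈ B, ∑ y ∈ B, (g x - g y) ^ 2 =
        B.card * g x ^ 2 - 2 * (∑ y ∈ B, g y) * g x + ∑ y ∈ B, g y ^ 2 := by
      intro x _
      have e : ∀ y ∈ B, (g x - g y) ^ 2 = g x ^ 2 - 2 * g x * g y + g y ^ 2 := fun y _ => by ring
      rw [sum_congr rfl e, sum_add_distrib, sum_sub_distrib, sum_const, nsmul_eq_mul, ← mul_sum]
      ring
    rw [sum_congr rfl this, sum_add_distrib, sum_sub_distrib, sum_const, nsmul_eq_mul,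
      ← mul_sum, ← mul_sum]
    ring
  rw [h1, hk B hB]
  push_cast
  ring

/-- Any two points are on a common member, or joined by a path of length two. -/
theorem const_of_members {k : ℕ} (hE : Exch F) (hk : Unif F (k + 1)) (hk1 : 1 ≤ k) {g : E → ℝ}
    (h : ∀ B ∈ F, ∀ x ∈ B, ∀ y ∈ B, g x = g y) {x y : E} (hx : x ∈ F.sup id)
    (hy : y ∈ F.sup id) : g x = g y := by
  simp only [mem_sup, id] at hx hy
  by_cases hxy : ∃ B ∈ F, x ∈ B ∧ y ∈ B
  · obtain ⟨B, hB, h1, h2⟩ := hxy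
    exact h B hB x h1 y h2
  · push Not at hxy
    obtain ⟨B, hB, hxB⟩ := hx
    have h1 := par_exch hE hk hy hxy hB hxB
    have h2 : 1 < B.card := by rw [hk B hB]; omega
    obtain ⟨z, hz, hzx⟩ := exists_mem_ne h2 x
    rw [h B hB x hxB z hz]
    exact h _ h1 z (by simp [hz, hzx]) y (by simp)

theorem QQ_nonpos {k : ℕ} (hE : Exch F) (hk : Unif F (k + 1)) (hk2 : 2 ≤ k)
    (hL : ∀ z, L2 (link F z) k) (g : E → ℝ) (hg : ∑ B ∈ F, ∑ x ∈ B, g x = 0) : QQ F g ≤ 0 := by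
  classical
  set V := {x // x ∈ F.sup id} with hV
  set A : Matrix V V ℝ := fun z x => ww F z.1 x.1 / (√(pp F z.1) * √(pp F x.1)) with hA
  have hp : ∀ z : V, 0 < pp F z.1 := fun z => pp_pos z.2
  have hs : ∀ z : V, 0 < √(pp F z.1) := fun z => Real.sqrt_pos.2 (hp z)
  have hss : ∀ z : V, √(pp F z.1) * √(pp F z.1) = pp F z.1 := fun z =>
    Real.mul_self_sqrt (hp z).le
  -- functions on the points and vectors
  set G : (V → ℝ) → E → ℝ := fun u x => if h : x ∈ F.sup id then u ⟨x, h⟩ / √(pp F x) else 0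
    with hG
  have hGv : ∀ (u : V → ℝ) (z : V), G u z.1 = u z / √(pp F z.1) := by
    intro u z
    simp only [hG]
    rw [dif_pos z.2]
  have hAu : ∀ (u : V → ℝ) (z : V), (A *ᵥ u) z = aa F (G u) z.1 / √(pp F z.1) := by
    intro u z
    rw [← sum_ww, ← sum_coe_sort, mulVec, dotProduct, sum_div]
    refine sum_congr rfl fun x _ => ?_
    rw [hGv]
    simp only [hA]
    have := hs z; have := hs x
    field_simp
  have hHerm : A.IsHermitian := by
    ext z x
    change star (A x z) = A z x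
    simp only [hA, star_trivial]
    rw [ww_comm, mul_comm]
  have hQu : ∀ u : V → ℝ, u ⬝ᵥ A *ᵥ u = QQ F (G u) := by
    intro u
    rw [QQ_eq, ← sum_coe_sort, dotProduct]
    refine sum_congr rfl fun z _ => ?_
    rw [hAu, hGv]
    ring
  have hAA : ∀ u : V → ℝ, (A *ᵥ u) ⬝ᵥ (A *ᵥ u) = ∑ z ∈ F.sup id, aa F (G u) z ^ 2 / pp F z := by
    intro u
    rw [← sum_coe_sort, dotProduct]
    refine sum_congr rfl fun z _ => ?_
    rw [hAu, div_mul_div_comm, hss, sq]
  have huu : ∀ u : V → ℝ, u ⬝ᵥ u = ∑ z ∈ F.sup id, pp F z * G u z ^ 2 := by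
    intro u
    rw [← sum_coe_sort, dotProduct]
    refine sum_congr rfl fun z _ => ?_
    rw [hGv, div_pow, sq (√(pp F z.1)), hss]
    have := hp z
    field_simp
  have key := neg_of_trickle A hHerm k (fun z => √(pp F z.1))
    (fun u => by rw [hQu, hAA]; exact QQ_le hk hk2 hL _)
    (fun u => by
      rw [hQu, huu]
      have := QQ_upper hk (G u)
      have h0 : 0 ≤ ∑ B ∈ F, ∑ x ∈ B, ∑ y ∈ B, (G u x - G u y) ^ 2 :=
        sum_nonneg fun _ _ => sum_nonneg fun _ _ => sum_nonneg fun _ _ => sq_nonneg _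
      linarith)
    (fun u he => by
      rw [hQu, huu] at he
      have h0 := QQ_upper hk (G u)
      rw [← he, sub_self] at h0
      have h1 : ∑ B ∈ F, ∑ x ∈ B, ∑ y ∈ B, (G u x - G u y) ^ 2 = 0 := by linarith
      have h2 : ∀ B ∈ F, ∀ x ∈ B, ∀ y ∈ B, G u x = G u y := by
        intro B hB x hx y hy
        have e1 := (sum_eq_zero_iff_of_nonneg (fun _ _ => sum_nonneg fun _ _ =>
          sum_nonneg fun _ _ => sq_nonneg _)).1 h1 B hB
        have e2 := (sum_eq_zero_iff_of_nonneg (fun _ _ => sum_nonneg fun _ _ => sq_nonneg _)).1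
          e1 x hx
        have e3 := (sum_eq_zero_iff_of_nonneg (fun _ _ => sq_nonneg _)).1 e2 y hy
        have := pow_eq_zero_iff (two_ne_zero) |>.1 e3
        linarith
      by_cases hne : Nonempty V
      · obtain ⟨z0⟩ := hne
        refine ⟨G u z0.1, ?_⟩
        ext z
        have e := const_of_members hE hk (by omega) h2 z.2 z0.2
        rw [Pi.smul_apply, smul_eq_mul, ← e, hGv]
        have := hs z
        field_simp
      · refine ⟨0, ?_⟩
        ext z
        exact absurd ⟨z⟩ hne)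
    (fun z => √(pp F z.1) * g z.1) (by
      rw [dotProduct]
      have h3 := hg
      rw [sum_pp, ← sum_coe_sort] at h3
      rw [← h3]
      refine sum_congr rfl fun z _ => ?_
      rw [mul_right_comm, hss])
  rw [hQu] at key
  have h4 : QQ F (G fun z => √(pp F z.1) * g z.1) = QQ F g := by
    unfold QQ
    refine sum_congr rfl fun B hB => ?_
    have h5 : ∀ x ∈ B, G (fun z => √(pp F z.1) * g z.1) x = g x := by
      intro x hx
      have hxV : x ∈ F.sup id := by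
        simp only [mem_sup, id]
        exact ⟨B, hB, hx⟩
      have := hGv (fun z => √(pp F z.1) * g z.1) ⟨x, hxV⟩
      simp only at this
      rw [this]
      have := hs ⟨x, hxV⟩
      simp only at this
      field_simp
    have h6 : ∑ x ∈ B, G (fun z => √(pp F z.1) * g z.1) x ^ 2 = ∑ x ∈ B, g x ^ 2 :=
      sum_congr rfl fun x hx => by rw [h5 x hx]
    rw [sum_congr rfl h5, h6]
  rw [h4] at key
  exact key

/-- From centred functions to all functions. -/
theorem l2_of_nonpos {k : ℕ} (hk : Unif F (k + 1))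
    (h : ∀ g : E → ℝ, ∑ B ∈ F, ∑ x ∈ B, g x = 0 → QQ F g ≤ 0) : L2 F (k + 1) := by
  intro g
  by_cases hF : F = ∅
  · subst hF; simp
  have hN : (0 : ℝ) < F.card := by exact_mod_cast card_pos.2 (nonempty_iff_ne_empty.2 hF)
  set N : ℝ := (F.card : ℝ) with hNdef
  set S : ℝ := ∑ B ∈ F, ∑ x ∈ B, g x with hS
  have hk1 : (0 : ℝ) < k + 1 := by positivity
  set c : ℝ := S / ((k + 1) * N) with hc
  have e1 : ∀ B ∈ F, ∑ x ∈ B, (g x - c) = ∑ x ∈ B, g x - (k + 1) * c := by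
    intro B hB
    rw [sum_sub_distrib, sum_const, hk B hB, nsmul_eq_mul]
    push_cast; ring
  have e2 : ∀ B ∈ F, ∑ x ∈ B, (g x - c) ^ 2 =
      ∑ x ∈ B, g x ^ 2 - 2 * c * ∑ x ∈ B, g x + (k + 1) * c ^ 2 := by
    intro B hB
    have : ∀ x ∈ B, (g x - c) ^ 2 = g x ^ 2 - 2 * c * g x + c ^ 2 := fun x _ => by ring
    rw [sum_congr rfl this, sum_add_distrib, sum_sub_distrib, ← mul_sum, sum_const, hk B hB,
      nsmul_eq_mul]
    push_cast; ring
  have h0 : ∑ B ∈ F, ∑ x ∈ B, (g x - c) = 0 := by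
    rw [sum_congr rfl e1, sum_sub_distrib, sum_const, nsmul_eq_mul, ← hS, ← hNdef, hc]
    field_simp
    ring
  have h1 := h _ h0
  unfold QQ at h1
  have e3 : ∀ B ∈ F, (∑ x ∈ B, (g x - c)) ^ 2 - ∑ x ∈ B, (g x - c) ^ 2 =
      (∑ x ∈ B, g x) ^ 2 - ∑ x ∈ B, g x ^ 2 - 2 * k * c * ∑ x ∈ B, g x + k * (k + 1) * c ^ 2 := by
    intro B hB
    rw [e1 B hB, e2 B hB]
    ring
  rw [sum_congr rfl e3, sum_add_distrib, sum_sub_distrib, sum_sub_distrib, ← mul_sum, sum_const,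
    nsmul_eq_mul, ← hS, ← hNdef] at h1
  have e4 : 2 * k * c * S - N * (k * (k + 1) * c ^ 2) = k / (k + 1) * (S ^ 2 / N) := by
    rw [hc]
    field_simp
    ring
  have e5 : ∑ B ∈ F, (∑ x ∈ B, g x) ^ 2 ≤ ∑ B ∈ F, ∑ x ∈ B, g x ^ 2 +
      k / (k + 1) * (S ^ 2 / N) := by linarith
  have e6 := mul_le_mul_of_nonneg_left e5 hN.le
  have e7 : N * (∑ B ∈ F, ∑ x ∈ B, g x ^ 2 + k / (k + 1) * (S ^ 2 / N)) =
      N * ∑ B ∈ F, ∑ x ∈ B, g x ^ 2 + (1 - 1 / ((k + 1 : ℕ) : ℝ)) * S ^ 2 := by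
    push_cast
    field_simp
    ring
  rw [e7] at e6
  exact e6

theorem t_TRICKLE : S_TRICKLE := fun E _ F k hk2 hE hk hL =>
  l2_of_nonpos hk (fun g hg => QQ_nonpos hE hk hk2 hL g hg)

end Pool.Agent.W989.ES
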