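import Pool.Agent.W989.ES.Poi3

/-!
# The Poincare inequality for matroid bases, part 4: rank one and two
-/

set_option autoImplicit false

namespace Pool.Agent.W989.ES

open Finset

variable {E : Type} [DecidableEq E] {F : Finset (Finset E)}

omit [DecidableEq E] in
theorem l2_one (hk : Unif F 1) : L2 F 1 := by
  intro g
  have h : ∀ B ∈ F, (∑ x ∈ B, g x) ^ 2 = ∑ x ∈ B, g x ^ 2 := by
    intro B hB
    obtain ⟨x, rfl⟩ := card_eq_one.1 (hk B hB)
    simp
  rw [sum_congr rfl h]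
  simp

/-- the points parallel to `x` -/
def cls (F : Finset (Finset E)) (x : E) : Finset E :=
  (F.sup id).filter (fun y => ¬ (x ≠ y ∧ {x, y} ∈ F))

theorem mem_cls {x y : E} : y ∈ cls F x ↔ y ∈ F.sup id ∧ ¬ (x ≠ y ∧ {x, y} ∈ F) := by
  simp [cls]

theorem mem_V {x : E} : x ∈ F.sup id ↔ ∃ B ∈ F, x ∈ B := by
  simp [mem_sup]

theorem no_common (hk : Unif F 2) {x y : E} (hxy : x ≠ y) (h : {x, y} ∉ F) :
    ∀ B ∈ F, x ∈ B → y ∉ B := by
  intro B hB hx hy
  apply h
  have : ({x, y} : Finset E) = B := by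
    refine eq_of_subset_of_card_le ?_ ?_
    · intro z hz
      simp only [mem_insert, mem_singleton] at hz
      rcases hz with rfl | rfl <;> assumption
    · rw [hk B hB, card_pair hxy]
  rw [this]
  exact hB

theorem adj_trans (hE : Exch F) (hk : Unif F 2) {x y z : E} (hy : y ∈ F.sup id)
    (hxy : ¬ (x ≠ y ∧ {x, y} ∈ F)) (hxz : x ≠ z ∧ {x, z} ∈ F) : y ≠ z ∧ {y, z} ∈ F := by
  by_cases he : x = y
  · subst he; exact hxz
  · have h1 : ({x, y} : Finset E) ∉ F := fun h => hxy ⟨he, h⟩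
    have h2 := par_exch hE hk (mem_V.1 hy) (no_common hk he h1) hxz.2 (by simp)
    have hyz : y ≠ z := by
      rintro rfl
      exact h1 hxz.2
    refine ⟨hyz, ?_⟩
    have : insert y (({x, z} : Finset E).erase x) = {y, z} := by
      rw [erase_insert (by simpa using hxz.1)]
    rwa [this] at h2

theorem cls_eq (hE : Exch F) (hk : Unif F 2) {x y : E} (hx : x ∈ F.sup id)
    (h : y ∈ cls F x) : cls F x = cls F y := by
  rw [mem_cls] at h
  ext z
  rw [mem_cls, mem_cls]
  refine and_congr_right fun hz => not_congr ⟨fun h2 => adj_trans hE hk h.1 h.2 h2, fun h2 => ?_⟩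
  refine adj_trans hE hk hx ?_ h2
  rintro ⟨h3, h4⟩
  exact h.2 ⟨h3.symm, by rwa [pair_comm]⟩

theorem self_mem_cls {x : E} (hx : x ∈ F.sup id) : x ∈ cls F x := by
  rw [mem_cls]
  exact ⟨hx, fun h => h.1 rfl⟩

theorem fiber_eq (hE : Exch F) (hk : Unif F 2) {x : E} (hx : x ∈ F.sup id) :
    (F.sup id).filter (fun z => cls F z = cls F x) = cls F x := by
  ext y
  rw [mem_filter]
  constructor
  · rintro ⟨hy, h⟩
    rw [← h]
    exact self_mem_cls hy
  · intro h
    exact ⟨(mem_cls.1 h).1, (cls_eq hE hk hx h).symm⟩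

theorem two_aa (hk : Unif F 2) (g : E → ℝ) {z : E} :
    aa F g z = ∑ y ∈ F.sup id, g y - ∑ y ∈ cls F z, g y := by
  rw [← sum_ww, eq_sub_iff_add_eq, cls, ← sum_filter_add_sum_filter_not (F.sup id)
    (fun y => ¬ (z ≠ y ∧ {z, y} ∈ F)) g, add_comm]
  congr 1
  rw [sum_filter]
  refine sum_congr rfl fun x _ => ?_
  unfold ww
  by_cases hx : x = z
  · simp [hx]
  · rw [if_neg hx]
    by_cases h : ({z, x} : Finset E) ∈ F
    · rw [if_pos (by simp [Ne.symm hx, h])]
      have : F.filter (fun B => z ∈ B ∧ x ∈ B) = {{z, x}} := by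
        ext B
        simp only [mem_filter, mem_singleton]
        constructor
        · rintro ⟨hB, h1, h2⟩
          refine (eq_of_subset_of_card_le ?_ ?_).symm
          · intro u hu
            simp only [mem_insert, mem_singleton] at hu
            rcases hu with rfl | rfl <;> assumption
          · rw [hk B hB, card_pair (Ne.symm hx)]
        · rintro rfl
          simp [h]
      rw [this]
      simp
    · rw [if_neg (by simp [h])]
      have : F.filter (fun B => z ∈ B ∧ x ∈ B) = ∅ := by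
        rw [filter_eq_empty_iff]
        rintro B hB ⟨h1, h2⟩
        exact no_common hk (Ne.symm hx) h B hB h1 h2
      rw [this]
      simp

theorem pp_two (hk : Unif F 2) {z : E} :
    pp F z = (F.sup id).card - (cls F z).card := by
  have h := two_aa hk (fun _ => (1 : ℝ)) (z := z)
  simp only [sum_const, nsmul_eq_mul, mul_one] at h
  rw [← h]
  unfold pp aa
  have h1 : ∀ B ∈ F.filter (fun A => z ∈ A), ∑ x ∈ B.erase z, (1 : ℝ) = 1 := by
    intro B hB
    rw [mem_filter] at hB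
    rw [sum_const, card_erase_of_mem hB.2, hk B hB.1]
    simp
  rw [sum_congr rfl h1]
  simp

theorem QQ_nonpos_two (hE : Exch F) (hk : Unif F 2) (g : E → ℝ)
    (hg : ∑ B ∈ F, ∑ x ∈ B, g x = 0) : QQ F g ≤ 0 := by
  classical
  set V := F.sup id with hV
  set I := V.image (cls F) with hI
  have hfib : ∀ f : E → ℝ, ∑ C ∈ I, ∑ z ∈ V.filter (fun z => cls F z = C), f z = ∑ z ∈ V, f z :=
    fun f => sum_fiberwise_of_maps_to (fun z hz => mem_image_of_mem _ hz) f
  have hfc : ∀ C ∈ I, V.filter (fun z => cls F z = C) = C := by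
    intro C hC
    obtain ⟨x, hx, rfl⟩ := mem_image.1 hC
    exact fiber_eq hE hk hx
  have h1 : QQ F g = (∑ y ∈ V, g y) ^ 2 - ∑ C ∈ I, (∑ y ∈ C, g y) ^ 2 := by
    rw [QQ_eq, ← hV, ← hfib]
    have : (∑ y ∈ V, g y) ^ 2 = ∑ C ∈ I, ∑ z ∈ V.filter (fun z => cls F z = C),
        g z * ∑ y ∈ V, g y := by
      rw [hfib, ← sum_mul, sq]
    rw [this, ← sum_sub_distrib]
    refine sum_congr rfl fun C hC => ?_
    have e : (∑ y ∈ C, g y) ^ 2 = ∑ z ∈ V.filter (fun z => cls F z = C), g z * ∑ y ∈ C, g y := by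
      rw [hfc C hC, ← sum_mul, sq]
    rw [e, ← sum_sub_distrib]
    refine sum_congr rfl fun z hz => ?_
    rw [mem_filter] at hz
    rw [two_aa hk, ← hV, hz.2]
    ring
  have h2 : (V.card : ℝ) * ∑ y ∈ V, g y = ∑ C ∈ I, (C.card : ℝ) * ∑ y ∈ C, g y := by
    rw [sum_pp, ← hV] at hg
    have h3 : ∑ z ∈ V, ((V.card : ℝ) - (cls F z).card) * g z = 0 := by
      rw [← hg]
      refine sum_congr rfl fun z _ => ?_
      rw [pp_two hk]
    have h4 : ∑ C ∈ I, (C.card : ℝ) * ∑ y ∈ C, g y = ∑ z ∈ V, ((cls F z).card : ℝ) * g z := by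
      rw [← hfib]
      refine sum_congr rfl fun C hC => ?_
      rw [mul_sum]
      conv_lhs => rw [← hfc C hC]
      refine sum_congr rfl fun z hz => ?_
      rw [mem_filter] at hz
      rw [hfc C hC, hz.2]
    rw [h4, mul_sum, ← sub_eq_zero, ← sum_sub_distrib, ← h3]
    exact sum_congr rfl fun z _ => by ring
  have h3 : (∑ C ∈ I, (C.card : ℝ) * ∑ y ∈ C, g y) ^ 2 ≤
      (∑ C ∈ I, (C.card : ℝ) ^ 2) * ∑ C ∈ I, (∑ y ∈ C, g y) ^ 2 := sum_mul_sq_le_sq_mul_sq _ _ _
  have h4 : ∑ C ∈ I, (C.card : ℝ) ^ 2 ≤ (V.card : ℝ) ^ 2 := by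
    have e1 : (V.card : ℝ) = ∑ C ∈ I, (C.card : ℝ) := by
      have := hfib (fun _ => (1 : ℝ))
      simp only [sum_const, nsmul_eq_mul, mul_one] at this
      rw [← this]
      exact sum_congr rfl fun C hC => by rw [hfc C hC]
    rw [e1, sq (∑ C ∈ I, (C.card : ℝ)), sum_mul]
    refine sum_le_sum fun C hC => ?_
    rw [sq]
    refine mul_le_mul_of_nonneg_left ?_ (by positivity)
    exact single_le_sum (f := fun C : Finset E => (C.card : ℝ)) (fun _ _ => by positivity) hC
  rw [h1]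
  by_cases h0 : V.card = 0
  · have hVe : V = ∅ := card_eq_zero.1 h0
    have : ∑ y ∈ V, g y = 0 := by rw [hVe]; simp
    rw [this]
    have : 0 ≤ ∑ C ∈ I, (∑ y ∈ C, g y) ^ 2 := sum_nonneg fun _ _ => sq_nonneg _
    nlinarith
  · have h5 : (0 : ℝ) < (V.card : ℝ) ^ 2 := by positivity
    have h6 : 0 ≤ ∑ C ∈ I, (∑ y ∈ C, g y) ^ 2 := sum_nonneg fun _ _ => sq_nonneg _
    have h7 : (V.card : ℝ) ^ 2 * (∑ y ∈ V, g y) ^ 2 ≤
        (V.card : ℝ) ^ 2 * ∑ C ∈ I, (∑ y ∈ C, g y) ^ 2 := by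
      rw [← mul_pow, h2]
      exact h3.trans (mul_le_mul_of_nonneg_right h4 h6)
    have := le_of_mul_le_mul_left h7 h5
    linarith

/-- The second moment inequality for all uniform exchange families. -/
theorem l2_all : ∀ (k : ℕ) (F : Finset (Finset E)), Exch F → Unif F (k + 1) → L2 F (k + 1) := by
  intro k
  induction k with
  | zero => exact fun F _ hk => l2_one hk
  | succ k ih =>
    intro F hE hk
    rcases Nat.eq_zero_or_pos k with rfl | hk0
    · exact l2_of_nonpos hk (QQ_nonpos_two hE hk)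
    · exact l2_of_nonpos hk (QQ_nonpos hE hk (by omega)
        (fun z => ih _ (exch_link hE z) (unif_link hk z)))

end Pool.Agent.W989.ES
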