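import Pool.Agent.W989.ES.Poi4

/-!
# The Poincare inequality for matroid bases, part 5: the inequality
-/

set_option autoImplicit false

namespace Pool.Agent.W989.ES

open Finset

variable {E : Type} [DecidableEq E] {F : Finset (Finset E)}

/-- sets obtained from members by removing one element -/
def facets (F : Finset (Finset E)) : Finset (Finset E) :=
  F.biUnion (fun B => B.image (fun x => B.erase x))

/-- the members containing `T` -/
def up (F : Finset (Finset E)) (T : Finset E) : Finset (Finset E) := F.filter (fun B => T ⊆ B)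

/-- variance over the members containing `T` -/
noncomputable def term (F : Finset (Finset E)) (f : Finset E → ℝ) (T : Finset E) : ℝ :=
  ∑ B ∈ up F T, f B ^ 2 - (∑ B ∈ up F T, f B) ^ 2 / (up F T).card

/-- the Dirichlet form of the down-up walk -/
noncomputable def DD (F : Finset (Finset E)) (f : Finset E → ℝ) : ℝ := ∑ T ∈ facets F, term F f T

theorem mem_facets {T : Finset E} : T ∈ facets F ↔ ∃ B ∈ F, ∃ x ∈ B, B.erase x = T := by
  simp [facets]

theorem mem_facets_link {z : E} {T : Finset E} (hz : z ∈ T) :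
    T.erase z ∈ facets (link F z) ↔ T ∈ facets F := by
  rw [mem_facets, mem_facets]
  constructor
  · rintro ⟨C, hC, x, hx, h⟩
    obtain ⟨B, hB, hzB, rfl⟩ := mem_link.1 hC
    rw [mem_erase] at hx
    refine ⟨B, hB, x, hx.2, ?_⟩
    have h1 : insert z ((B.erase z).erase x) = T := by rw [h, insert_erase hz]
    rw [← h1, erase_right_comm, insert_erase]
    simp [hzB, Ne.symm hx.1]
  · rintro ⟨B, hB, x, hx, rfl⟩
    rw [mem_erase] at hz
    exact ⟨B.erase z, mem_link.2 ⟨B, hB, hz.2, rfl⟩, x, by simp [hx, Ne.symm hz.1],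
      erase_right_comm⟩

theorem notMem_of_facets_link {z : E} {T : Finset E} (h : T ∈ facets (link F z)) : z ∉ T := by
  rw [mem_facets] at h
  obtain ⟨C, hC, x, hx, rfl⟩ := h
  obtain ⟨B, hB, hzB, rfl⟩ := mem_link.1 hC
  simp

theorem sum_up_link (z : E) {T : Finset E} (hz : z ∉ T) (φ : Finset E → ℝ) :
    ∑ C ∈ up (link F z) T, φ (insert z C) = ∑ B ∈ up F (insert z T), φ B := by
  unfold up
  rw [sum_filter, sum_link F z (fun C => if T ⊆ C then φ (insert z C) else 0), ← sum_filter,
    filter_filter]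
  refine sum_congr ?_ ?_
  · ext B
    simp only [mem_filter, insert_subset_iff]
    refine and_congr_right fun hB => and_congr_right fun hzB => ?_
    exact ⟨fun h => h.trans (erase_subset _ _), fun h => subset_erase.2 ⟨h, hz⟩⟩
  · intro B hB
    rw [mem_filter, insert_subset_iff] at hB
    rw [insert_erase hB.2.1]

theorem DD_link (z : E) (f : Finset E → ℝ) :
    DD (link F z) (fun C => f (insert z C)) =
      ∑ T ∈ (facets F).filter (fun T => z ∈ T), term F f T := by
  unfold DD
  refine sum_bij (fun T _ => insert z T) ?_ ?_ ?_ ?_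
  · intro T hT
    have h1 := notMem_of_facets_link hT
    rw [mem_filter]
    refine ⟨?_, mem_insert_self _ _⟩
    rw [← mem_facets_link (mem_insert_self z T), erase_insert h1]
    exact hT
  · intro T hT T' hT' h
    have h1 := notMem_of_facets_link hT
    have h2 := notMem_of_facets_link hT'
    rw [← erase_insert h1, ← erase_insert h2, h]
  · intro T hT
    rw [mem_filter] at hT
    exact ⟨T.erase z, (mem_facets_link hT.2).2 hT.1, insert_erase hT.2⟩
  · intro T hT
    have h1 := notMem_of_facets_link hT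
    unfold term
    rw [sum_up_link z h1 (fun B => f B ^ 2), sum_up_link z h1 f]
    have h2 := sum_up_link z h1 (F := F) (fun _ => 1)
    simp only [sum_const, nsmul_eq_mul, mul_one] at h2
    rw [h2]

theorem card_facets {k : ℕ} (hk : Unif F (k + 1)) {T : Finset E} (hT : T ∈ facets F) :
    T.card = k := by
  rw [mem_facets] at hT
  obtain ⟨B, hB, x, hx, rfl⟩ := hT
  rw [card_erase_of_mem hx, hk B hB]
  rfl

/-- variance of the restriction to the links -/
theorem sum_proj_le {k : ℕ} (hE : Exch F) (hk : Unif F (k + 1)) (hF : F.Nonempty)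
    (f : Finset E → ℝ) :
    ∑ z ∈ F.sup id, (∑ B ∈ F.filter (fun A => z ∈ A), f B) ^ 2 / pp F z -
      (k + 1) * (∑ B ∈ F, f B) ^ 2 / F.card ≤ ∑ B ∈ F, f B ^ 2 - (∑ B ∈ F, f B) ^ 2 / F.card := by
  have hN : (0 : ℝ) < (F.card : ℝ) := by exact_mod_cast card_pos.2 hF
  set N : ℝ := (F.card : ℝ) with hNdef
  set S : ℝ := ∑ B ∈ F, f B with hS
  set m : ℝ := S / N with hm
  set V := F.sup id with hV
  set Fz : E → ℝ := fun z => ∑ B ∈ F.filter (fun A => z ∈ A), f B with hFz
  set f0 : Finset E → ℝ := fun B => f B - m with hf0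
  set g : E → ℝ := fun z => (Fz z - m * pp F z) / pp F z with hg
  have hF0 : ∀ z, ∑ B ∈ F.filter (fun A => z ∈ A), f0 B = Fz z - m * pp F z := by
    intro z
    simp only [hf0, hFz]
    rw [sum_sub_distrib, sum_const, nsmul_eq_mul, pp]
    ring
  have hS0 : ∑ B ∈ F, f0 B = 0 := by
    simp only [hf0]
    rw [sum_sub_distrib, sum_const, nsmul_eq_mul, ← hS, ← hNdef, hm]
    field_simp
    ring
  set X : ℝ := ∑ z ∈ V, (Fz z - m * pp F z) ^ 2 / pp F z with hX
  have hXpos : 0 ≤ X := sum_nonneg fun z hz => by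
    have := pp_pos (F := F) hz
    positivity
  have e1 : ∑ B ∈ F, f0 B * ∑ z ∈ B, g z = X := by
    simp only [mul_sum]
    rw [sum_swap F (fun B z => f0 B * g z), hX]
    refine sum_congr rfl fun z hz => ?_
    have hp := pp_pos (F := F) hz
    rw [← sum_mul, hF0]
    simp only [hg]
    field_simp
  have e2 : ∑ B ∈ F, ∑ z ∈ B, g z ^ 2 = X := by
    rw [sum_pp (fun z => g z ^ 2), hX]
    refine sum_congr rfl fun z hz => ?_
    have hp := pp_pos (F := F) hz
    simp only [hg]
    field_simp
  have e3 : ∑ B ∈ F, ∑ z ∈ B, g z = 0 := by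
    rw [sum_pp g]
    have h1 : ∀ z ∈ V, pp F z * g z = ∑ B ∈ F.filter (fun A => z ∈ A), f0 B := by
      intro z hz
      have hp := pp_pos (F := F) hz
      rw [hF0]
      simp only [hg]
      field_simp
    rw [sum_congr rfl h1, ← sum_swap F (fun B _ => f0 B)]
    have h2 : ∀ B ∈ F, ∑ x ∈ B, f0 B = (k + 1) * f0 B := by
      intro B hB
      rw [sum_const, hk B hB, nsmul_eq_mul]
      push_cast; ring
    rw [sum_congr rfl h2, ← mul_sum, hS0, mul_zero]
  have e4 : ∑ B ∈ F, (∑ z ∈ B, g z) ^ 2 ≤ X := by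
    have h := l2_all k F hE hk g
    rw [e3, e2] at h
    simp only [ne_eq, OfNat.ofNat_ne_zero, not_false_eq_true, zero_pow, mul_zero, add_zero] at h
    exact le_of_mul_le_mul_left h hN
  set Y : ℝ := ∑ B ∈ F, f0 B ^ 2 with hY
  have e5 : X ^ 2 ≤ Y * X := by
    have h := sum_mul_sq_le_sq_mul_sq F f0 (fun B => ∑ z ∈ B, g z)
    rw [e1] at h
    exact h.trans (mul_le_mul_of_nonneg_left e4 (sum_nonneg fun _ _ => sq_nonneg _))
  have e6 : X ≤ Y := by
    rcases hXpos.eq_or_lt with h | h
    · rw [← h]; exact sum_nonneg fun _ _ => sq_nonneg _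
    · rw [sq] at e5
      exact le_of_mul_le_mul_right e5 h
  have e7 : Y = ∑ B ∈ F, f B ^ 2 - S ^ 2 / N := by
    have : ∀ B ∈ F, f0 B ^ 2 = f B ^ 2 - 2 * m * f B + m ^ 2 := fun B _ => by
      simp only [hf0]; ring
    rw [hY, sum_congr rfl this, sum_add_distrib, sum_sub_distrib, ← mul_sum, sum_const,
      nsmul_eq_mul, ← hS, ← hNdef, hm]
    field_simp
    ring
  have e8 : X = ∑ z ∈ V, Fz z ^ 2 / pp F z - (k + 1) * S ^ 2 / N := by
    have h1 : ∀ z ∈ V, (Fz z - m * pp F z) ^ 2 / pp F z =
        Fz z ^ 2 / pp F z - 2 * m * Fz z + m ^ 2 * pp F z := by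
      intro z hz
      have hp := pp_pos (F := F) hz
      field_simp
      ring
    have h2 : ∑ z ∈ V, Fz z = (k + 1) * S := by
      rw [← sum_swap F (fun B _ => f B), hS, mul_sum]
      refine sum_congr rfl fun B hB => ?_
      rw [sum_const, hk B hB, nsmul_eq_mul]
      push_cast; ring
    have h3 : ∑ z ∈ V, pp F z = (k + 1) * N := by
      have := sum_pp (F := F) (fun _ => (1 : ℝ))
      simp only [mul_one] at this
      rw [← this, hNdef]
      have h4 : ∀ B ∈ F, ∑ x ∈ B, (1 : ℝ) = k + 1 := by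
        intro B hB
        rw [sum_const, hk B hB]
        simp
      rw [sum_congr rfl h4, sum_const, nsmul_eq_mul]
      ring
    rw [hX, sum_congr rfl h1, sum_add_distrib, sum_sub_distrib, ← mul_sum, ← mul_sum, h2, h3, hm]
    field_simp
    ring
  rw [e7, e8] at e6
  exact e6

/-- Poincare inequality for the down-up walk. -/
theorem var_le : ∀ (k : ℕ) (F : Finset (Finset E)), Exch F → Unif F (k + 1) →
    ∀ f : Finset E → ℝ, ∑ B ∈ F, f B ^ 2 - (∑ B ∈ F, f B) ^ 2 / F.card ≤ DD F f := by
  intro k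
  induction k with
  | zero =>
    intro F _ hk f
    by_cases hF : F = ∅
    · subst hF
      simp [DD, facets]
    · have h1 : facets F = {∅} := by
        ext T
        rw [mem_singleton, mem_facets]
        constructor
        · rintro ⟨B, hB, x, hx, rfl⟩
          rw [← card_eq_zero, card_erase_of_mem hx, hk B hB]
        · rintro rfl
          obtain ⟨B, hB⟩ := nonempty_iff_ne_empty.2 hF
          obtain ⟨x, rfl⟩ := card_eq_one.1 (hk B hB)
          exact ⟨_, hB, x, by simp, by simp⟩
      have h2 : up F ∅ = F := by simp [up]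
      rw [DD, h1, sum_singleton, term, h2]
  | succ k ih =>
    intro F hE hk f
    by_cases hF : F.Nonempty
    swap
    · rw [not_nonempty_iff_eq_empty] at hF
      subst hF
      simp [DD, facets]
    have h1 : ∀ z ∈ F.sup id, ∑ B ∈ F.filter (fun A => z ∈ A), f B ^ 2 -
        (∑ B ∈ F.filter (fun A => z ∈ A), f B) ^ 2 / pp F z ≤
          ∑ T ∈ (facets F).filter (fun T => z ∈ T), term F f T := by
      intro z _
      have h := ih (link F z) (exch_link hE z) (unif_link hk z) (fun C => f (insert z C))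
      rw [DD_link, card_link, sum_link F z (fun C => f (insert z C) ^ 2),
        sum_link F z (fun C => f (insert z C))] at h
      have e : ∀ B ∈ F.filter (fun A => z ∈ A), insert z (B.erase z) = B := fun B hB =>
        insert_erase (mem_filter.1 hB).2
      have e1 : ∑ B ∈ F.filter (fun A => z ∈ A), f (insert z (B.erase z)) ^ 2 =
          ∑ B ∈ F.filter (fun A => z ∈ A), f B ^ 2 := sum_congr rfl fun B hB => by rw [e B hB]
      have e2 : ∑ B ∈ F.filter (fun A => z ∈ A), f (insert z (B.erase z)) =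
          ∑ B ∈ F.filter (fun A => z ∈ A), f B := sum_congr rfl fun B hB => by rw [e B hB]
      rw [e1, e2] at h
      exact h
    have h2 := sum_le_sum h1
    rw [sum_sub_distrib] at h2
    have h3 : ∑ z ∈ F.sup id, ∑ B ∈ F.filter (fun A => z ∈ A), f B ^ 2 =
        (k + 2) * ∑ B ∈ F, f B ^ 2 := by
      rw [← sum_swap F (fun B _ => f B ^ 2), mul_sum]
      refine sum_congr rfl fun B hB => ?_
      rw [sum_const, hk B hB, nsmul_eq_mul]
      push_cast; ring
    have h4 : ∑ z ∈ F.sup id, ∑ T ∈ (facets F).filter (fun T => z ∈ T), term F f T =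
        (k + 1) * DD F f := by
      simp only [sum_filter]
      rw [sum_comm, DD, mul_sum]
      refine sum_congr rfl fun T hT => ?_
      rw [← sum_filter, sum_const, nsmul_eq_mul]
      have : (F.sup id).filter (fun z => z ∈ T) = T := by
        ext x
        rw [mem_filter, mem_V]
        constructor
        · exact fun h => h.2
        · intro hx
          refine ⟨?_, hx⟩
          rw [mem_facets] at hT
          obtain ⟨B, hB, y, hy, rfl⟩ := hT
          exact ⟨B, hB, (mem_erase.1 hx).2⟩
      rw [this, card_facets hk hT]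
      push_cast; ring
    rw [h3, h4] at h2
    have h5 := sum_proj_le hE hk hF f
    push_cast at h5
    have hN : (0 : ℝ) < (F.card : ℝ) := by exact_mod_cast card_pos.2 hF
    have h6 : ((k : ℝ) + 1 + 1) * (∑ B ∈ F, f B) ^ 2 / F.card =
        (k + 2) * ((∑ B ∈ F, f B) ^ 2 / F.card) := by ring
    rw [h6] at h5
    have hk1 : (0 : ℝ) < k + 1 := by positivity
    refine le_of_mul_le_mul_left ?_ hk1
    linarith

theorem term_eq (f : Finset E → ℝ) (T : Finset E) :
    2 * (up F T).card * term F f T =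
      ∑ A ∈ up F T, ∑ B ∈ up F T, (f A - f B) ^ 2 := by
  have h1 : ∑ A ∈ up F T, ∑ B ∈ up F T, (f A - f B) ^ 2 =
      2 * (up F T).card * ∑ B ∈ up F T, f B ^ 2 - 2 * (∑ B ∈ up F T, f B) ^ 2 := by
    have : ∀ A ∈ up F T, ∑ B ∈ up F T, (f A - f B) ^ 2 =
        (up F T).card * f A ^ 2 - 2 * (∑ B ∈ up F T, f B) * f A + ∑ B ∈ up F T, f B ^ 2 := by
      intro A _
      have e : ∀ B ∈ up F T, (f A - f B) ^ 2 = f A ^ 2 - 2 * f A * f B + f B ^ 2 :=
        fun B _ => by ring
      rw [sum_congr rfl e, sum_add_distrib, sum_sub_distrib, sum_const, nsmul_eq_mul, ← mul_sum]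
      ring
    rw [sum_congr rfl this, sum_add_distrib, sum_sub_distrib, sum_const, nsmul_eq_mul,
      ← mul_sum, ← mul_sum]
    ring
  rw [h1, term]
  by_cases h0 : (up F T).card = 0
  · have : up F T = ∅ := card_eq_zero.1 h0
    simp [this]
  · have : ((up F T).card : ℝ) ≠ 0 := by exact_mod_cast h0
    field_simp

theorem term_le (f : Finset E → ℝ) (T : Finset E) :
    4 * term F f T ≤ ∑ A ∈ up F T, ∑ B ∈ up F T, (f A - f B) ^ 2 := by
  rw [← term_eq]
  rcases Nat.lt_or_ge (up F T).card 2 with h | h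
  · have h0 : term F f T = 0 := by
      unfold term
      rcases (Nat.le_one_iff_eq_zero_or_eq_one).1 (Nat.lt_succ_iff.1 h) with h1 | h1
      · rw [card_eq_zero.1 h1]; simp
      · obtain ⟨B, hB⟩ := card_eq_one.1 h1
        rw [hB]; simp
    rw [h0]; simp
  · have h1 : (2 : ℝ) ≤ ((up F T).card : ℝ) := by exact_mod_cast h
    have h2 : 0 ≤ term F f T := by
      have h3 := term_eq (F := F) f T
      have h4 : 0 ≤ ∑ A ∈ up F T, ∑ B ∈ up F T, (f A - f B) ^ 2 :=
        sum_nonneg fun _ _ => sum_nonneg fun _ _ => sq_nonneg _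
      rw [← h3] at h4
      by_contra hneg
      push Not at hneg
      nlinarith
    nlinarith

theorem DD_le {k : ℕ} (hk : Unif F (k + 1)) (f : Finset E → ℝ) :
    4 * DD F f ≤ ∑ A ∈ F, ∑ B ∈ F.filter (fun B => (A \ B).card = 1), (f A - f B) ^ 2 := by
  have h1 : 4 * DD F f ≤ ∑ T ∈ facets F, ∑ A ∈ up F T, ∑ B ∈ up F T, (f A - f B) ^ 2 := by
    rw [DD, mul_sum]
    exact sum_le_sum fun T _ => term_le f T
  refine h1.trans ?_
  have h2 : ∀ T, ∑ A ∈ up F T, ∑ B ∈ up F T, (f A - f B) ^ 2 =
      ∑ A ∈ F, ∑ B ∈ F, (if T ⊆ A ∧ T ⊆ B then (f A - f B) ^ 2 else 0) := by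
    intro T
    unfold up
    rw [sum_filter]
    refine sum_congr rfl fun A _ => ?_
    by_cases hA : T ⊆ A
    · simp only [hA, if_true, true_and, sum_filter]
    · simp [hA]
  simp only [h2]
  rw [sum_comm]
  refine sum_le_sum fun A hA => ?_
  rw [sum_comm, sum_filter]
  refine sum_le_sum fun B hB => ?_
  rw [← sum_filter, sum_const, nsmul_eq_mul]
  by_cases hAB : A = B
  · subst hAB; simp
  · have hle : (A ∩ B).card ≤ k := by
      by_contra hlt
      push Not at hlt
      apply hAB
      have h3 : A ∩ B = A := eq_of_subset_of_card_le inter_subset_left (by rw [hk A hA]; omega)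
      have h4 : A ∩ B = B := eq_of_subset_of_card_le inter_subset_right (by rw [hk B hB]; omega)
      rw [← h3, h4]
    have hT : ∀ T ∈ (facets F).filter (fun T => T ⊆ A ∧ T ⊆ B), T = A ∩ B := by
      intro T hT
      rw [mem_filter] at hT
      exact eq_of_subset_of_card_le (subset_inter hT.2.1 hT.2.2)
        (by rw [card_facets hk hT.1]; exact hle)
    by_cases he : ((facets F).filter (fun T => T ⊆ A ∧ T ⊆ B)).Nonempty
    · obtain ⟨T, hTm⟩ := he
      have h5 := hT T hTm
      have h6 := card_facets hk (mem_filter.1 hTm).1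
      have h7 : (A \ B).card = 1 := by
        have h8 := card_sdiff_add_card_inter A B
        rw [← h5, h6, hk A hA] at h8
        omega
      rw [if_pos h7]
      have h9 : ((facets F).filter (fun T => T ⊆ A ∧ T ⊆ B)).card ≤ 1 :=
        card_le_one.2 fun a ha b hb => (hT a ha).trans (hT b hb).symm
      have h10 : ((((facets F).filter (fun T => T ⊆ A ∧ T ⊆ B)).card : ℕ) : ℝ) ≤ 1 := by
        exact_mod_cast h9
      nlinarith [sq_nonneg (f A - f B)]
    · rw [not_nonempty_iff_eq_empty] at he
      rw [he]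
      simp only [card_empty, Nat.cast_zero, zero_mul]
      split_ifs <;> positivity

/-- **Poincare inequality for the bases of a matroid.** -/
theorem poincare {r : ℕ} (hE : Exch F) (hk : Unif F r) (f : Finset E → ℝ) :
    4 * (∑ B ∈ F, f B ^ 2 - (∑ B ∈ F, f B) ^ 2 / F.card) ≤
      ∑ A ∈ F, ∑ B ∈ F.filter (fun B => (A \ B).card = 1), (f A - f B) ^ 2 := by
  cases r with
  | zero =>
    have h1 : F = ∅ ∨ F = {∅} := by
      rcases F.eq_empty_or_nonempty with h | ⟨B, hB⟩
      · exact Or.inl h
      · right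
        ext C
        rw [mem_singleton]
        constructor
        · intro hC; exact card_eq_zero.1 (hk C hC)
        · rintro rfl
          rwa [← card_eq_zero.1 (hk B hB)]
    rcases h1 with h | h <;> subst h <;> simp
  | succ k => exact (mul_le_mul_of_nonneg_left (var_le k F hE hk f) (by norm_num)).trans (DD_le hk f)

end Pool.Agent.W989.ES
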