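import Mathlib

/-!
# Exact sampling of bases: statements, part 1 (mathematics, Mathlib only)

`helper989`, project ES (problem MP_d8fb5e_lc).
-/

set_option autoImplicit false

namespace Pool.Agent.W989.ES

open Finset

/-! ### Spectral gap of the basis exchange walk (Anari, Liu, Oveis Gharan, Vinzant; Cryan, Guo, Mousa) -/

section Gap

variable {E : Type} [DecidableEq E]

/-- The basis exchange property of a family of finite sets. -/
def Exch (F : Finset (Finset E)) : Prop :=
  ∀ A ∈ F, ∀ B ∈ F, ∀ a ∈ A \ B, ∃ b ∈ B \ A, insert b (A.erase a) ∈ F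

/-- All members have `k` elements. -/
def Unif (F : Finset (Finset E)) (k : ℕ) : Prop := ∀ A ∈ F, A.card = k

/-- The link (contraction) of a point. -/
def link (F : Finset (Finset E)) (z : E) : Finset (Finset E) :=
  (F.filter (fun A => z ∈ A)).image (fun A => A.erase z)

/-- The second moment inequality (all non-trivial eigenvalues of the local walk are nonpositive). -/
def L2 (F : Finset (Finset E)) (k : ℕ) : Prop :=
  ∀ g : E → ℝ, (F.card : ℝ) * ∑ B ∈ F, (∑ x ∈ B, g x) ^ 2 ≤
    F.card * ∑ B ∈ F, ∑ x ∈ B, g x ^ 2 + (1 - 1 / (k : ℝ)) * (∑ B ∈ F, ∑ x ∈ B, g x) ^ 2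

/-- The Poincare inequality of the basis exchange graph. -/
def Gap (F : Finset (Finset E)) : Prop :=
  ∀ f : Finset E → ℝ, ∑ A ∈ F, ∑ B ∈ F, (f A - f B) ^ 2 ≤
    F.card * ∑ A ∈ F, ∑ B ∈ F.filter (fun B => (A \ B).card = 1), (f A - f B) ^ 2

end Gap

/-- ES-CARD: members of an exchange family have the same cardinality, and links are exchange
families. -/
def S_CARD : Prop := ∀ (E : Type) [DecidableEq E] (F : Finset (Finset E)), Exch F →
  (∀ A ∈ F, ∀ B ∈ F, A.card = B.card) ∧ (∀ z, Exch (link F z)) ∧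
  (∀ k, Unif F (k + 1) → ∀ z, Unif (link F z) k)

/-- ES-TWO: rank one and two. -/
def S_TWO : Prop := ∀ (E : Type) [DecidableEq E] (F : Finset (Finset E)), Exch F →
  (Unif F 1 → L2 F 1) ∧ (Unif F 2 → L2 F 2)

/-- ES-TRICKLE: Oppenheim's trickling down. -/
def S_TRICKLE : Prop := ∀ (E : Type) [DecidableEq E] (F : Finset (Finset E)) (k : ℕ), 2 ≤ k →
  Exch F → Unif F (k + 1) → (∀ z, L2 (link F z) k) → L2 F (k + 1)

/-- ES-GAP: from the second moment inequality to the Poincare inequality. -/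
def S_GAP : Prop :=
  (∀ (E : Type) [DecidableEq E] (F : Finset (Finset E)) (k : ℕ), 1 ≤ k → Exch F → Unif F k →
    L2 F k) →
  ∀ (E : Type) [DecidableEq E] (F : Finset (Finset E)), Exch F → Gap F

/-- ES-MIX: convergence of a lazy symmetric chain, entry by entry. -/
def S_MIX : Prop := ∀ (S : Type) [Fintype S] [DecidableEq S] [Nonempty S] (K : Matrix S S ℝ)
  (D : ℝ), 1 ≤ D → (∀ a b, K a b = K b a) → (∀ a b, 0 ≤ K a b) → (∀ a, ∑ b, K a b = D) →
  (∀ a, D ≤ 2 * K a a) →
  (∀ f : S → ℝ, ∑ a, ∑ b, (f a - f b) ^ 2 ≤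
    Fintype.card S * ∑ a, ∑ b, K a b * (f a - f b) ^ 2) →
  ∀ (t : ℕ) (a b : S), |(K ^ t) a b / D ^ t - 1 / Fintype.card S| ≤ (1 - 1 / D) ^ t

/-! ### Sampling a discrete distribution by reading coins (inverse of the distribution function) -/

/-- The number with given binary digits, most significant digit first. -/
def valM (v : List Bool) : ℕ := v.foldl (fun c b => 2 * c + if b then 1 else 0) 0

/-- The cell of the partition of `[0, 1)` into intervals of lengths `wt_j / wt.sum` which contains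
the dyadic interval of the coin sequence `v`. -/
def cell (wt : List ℕ) (v : List Bool) : Option ℕ :=
  (List.range wt.length).find? (fun j =>
    decide ((wt.take j).sum * 2 ^ v.length ≤ valM v * wt.sum) &&
    decide ((valM v + 1) * wt.sum ≤ (wt.take (j + 1)).sum * 2 ^ v.length))

/-- ES-CELL: properties of `cell`. -/
def S_CELL : Prop := ∀ wt : List ℕ, 0 < wt.sum →
  (∀ v u : List Bool, ∀ j, cell wt v = some j → cell wt (v ++ u) = some j) ∧
  (∀ v : List Bool, ∀ j, cell wt v = some j → ∃ h : j < wt.length, 0 < wt[j]) ∧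
  (∀ k j : ℕ, ∀ h : j < wt.length,
    |((univ.filter (fun v : Fin k → Bool => cell wt (List.ofFn v) = some j)).card : ℝ) / 2 ^ k -
      (wt[j] : ℝ) / wt.sum| ≤ 2 / 2 ^ k) ∧
  (∀ k : ℕ, (univ.filter (fun v : Fin k → Bool => cell wt (List.ofFn v) = none)).card ≤ wt.length)

/-- ES-TIME: the expected running time.  `r k` is the probability that the algorithm is still
running after `k` coins; `2 ^ n` is the waiting time in the rare phase (entered with
probability `2 ^ (- n * n)`), `B n` is the number of coins of the normal phase. -/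
def S_TIME : Prop := ∀ (B : ℕ → ℕ) (b p : Polynomial ℕ), (∀ n, B n ≤ b.eval n) →
  ∃ q : Polynomial ℕ, ∀ (n z : ℕ) (r : ℕ → ℝ), n ≤ z → (∀ k, 0 ≤ r k) → (∀ k, r k ≤ 1) →
    (∀ k, B n ≤ k → r k ≤ 1 / 2 ^ (n * n)) →
    (∀ k, r (B n + 2 ^ n + k) ≤ 2 ^ n / 2 ^ k / 2 ^ (n * n)) →
    ∀ K : ℕ, ∑ k ∈ range K, r k * ((p.eval (z + 4 * k + 4) : ℕ) : ℝ) ≤ ((q.eval z : ℕ) : ℝ)

end Pool.Agent.W989.ES
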