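import Pool.Agent.W989.ES.StG
import Pool.Agent.H671R2.PolyAuto

/-!
# Exact sampling of bases: statements, part 2 (the algorithm and its running time)

`helper989`, project ES (problem MP_d8fb5e_lc).  Sets are masks: lists of Booleans of length `n`.
-/

set_option autoImplicit false

namespace Pool.Agent.W989.ES

open Finset Pool.Agent.NPC

/-- The masks of length `n` with `P` form the bases of a matroid. -/
structure Fam (n : ℕ) (P : List Bool → Bool) : Prop where
  ne : ∃ A : List Bool, A.length = n ∧ P A = true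
  exch : ∀ A B : List Bool, A.length = n → B.length = n → P A = true → P B = true →
    ∀ i < n, A.getD i false = true → B.getD i false = false →
    ∃ j < n, A.getD j false = false ∧ B.getD j false = true ∧
      P ((A.set i false).set j true) = true

/-- The mask of length `n` with the binary digits of `c`. -/
def mask (n c : ℕ) : List Bool := (List.range n).map (fun i => c.testBit i)

/-- All masks of length `n`. -/
def masks (n : ℕ) : List (List Bool) := (List.range (2 ^ n)).map (mask n)

/-- Remove `i`, insert `j`. -/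
def swap (A : List Bool) (i j : ℕ) : List Bool := (A.set i false).set j true

/-- One step of the lazy basis exchange walk, from the mask `A` with `2 a + 1` coins `c`. -/
def move (P : List Bool → Bool) (a : ℕ) (A c : List Bool) : List Bool :=
  if (c.headD false && A.getD (valB (c.tail.take a)) false &&
      !(A.getD (valB (c.tail.drop a)) true) &&
      P (swap A (valB (c.tail.take a)) (valB (c.tail.drop a)))) = true then
    swap A (valB (c.tail.take a)) (valB (c.tail.drop a))
  else A

/-- `t` steps of the walk, with the coins `w`. -/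
def walk (P : List Bool → Bool) (a : ℕ) : ℕ → List Bool → List Bool → List Bool
  | 0, A, _ => A
  | t + 1, A, w => walk P a t (move P a A (w.take (2 * a + 1))) (w.drop (2 * a + 1))

/-- number of bits of an index below `n` -/
def pa (n : ℕ) : ℕ := n.size
/-- number of possible coin sequences for one step -/
def pD (n : ℕ) : ℕ := 2 ^ (2 * pa n + 1)
/-- number of coins which decide whether the rare phase is entered -/
def pm (n : ℕ) : ℕ := n * n
/-- number of steps -/
def pt (n : ℕ) : ℕ := pD n * (pm n + n)
/-- number of coins of the walk -/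
def pL (n : ℕ) : ℕ := pt n * (2 * pa n + 1)

/-- States of the walk. -/
abbrev St (n : ℕ) (P : List Bool → Bool) : Type := {A : List Bool // A ∈ (masks n).filter P}

/-- The kernel of the walk. -/
noncomputable def KK (n : ℕ) (P : List Bool → Bool) (a : ℕ) : Matrix (St n P) (St n P) ℝ :=
  fun A B => ((univ.filter (fun c : Fin (2 * a + 1) → Bool =>
    move P a A.1 (List.ofFn c) = B.1)).card : ℝ)

/-- ES-MASK: the list of masks. -/
def S_MASK : Prop :=
  (∀ n, (masks n).Nodup) ∧ (∀ n (A : List Bool), A ∈ masks n ↔ A.length = n) ∧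
  (∀ n (c : List Bool), c.length = n → mask n (valB c) = c) ∧
  (∀ n c, c < 2 ^ n → valB (mask n c) = c) ∧
  (∀ n (P : List Bool → Bool) (A c : List Bool) (a : ℕ), A ∈ (masks n).filter P →
    move P a A c ∈ (masks n).filter P) ∧
  (∀ n (P : List Bool → Bool) (A w : List Bool) (a t : ℕ), A ∈ (masks n).filter P →
    walk P a t A w ∈ (masks n).filter P) ∧
  (∀ v : List Bool, valM v = valB v.reverse)

/-- ES-KER: the kernel of the walk. -/
def S_KER : Prop := ∀ (n a : ℕ) (P : List Bool → Bool), n ≤ 2 ^ a →
  (∀ A B, KK n P a A B = KK n P a B A) ∧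
  (∀ A, ∑ B, KK n P a A B = 2 ^ (2 * a + 1)) ∧
  (∀ A, 2 ^ (2 * a + 1) ≤ 2 * KK n P a A A) ∧
  (∀ A B : St n P, A ≠ B → (∃ i j : ℕ, i < n ∧ j < n ∧ A.1.getD i false = true ∧
    A.1.getD j true = false ∧ B.1 = swap A.1 i j) → 1 ≤ KK n P a A B)

/-- ES-POW: powers of the kernel count coin sequences. -/
def S_POW : Prop := ∀ (n a : ℕ) (P : List Bool → Bool) (t : ℕ) (A B : St n P),
  (KK n P a ^ t) A B = ((univ.filter (fun w : Fin (t * (2 * a + 1)) → Bool =>
    walk P a t A.1 (List.ofFn w) = B.1)).card : ℝ)

/-- The number of coin sequences which lead from `A0` to `B`. -/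
def cntW (P : List Bool → Bool) (n : ℕ) (A0 B : List Bool) : ℕ :=
  (univ.filter (fun w : Fin (pL n) → Bool =>
    walk P (pa n) (pt n) A0 (List.ofFn w) = B)).card

/-- The Poincare inequality for masks: `K` is any kernel with weight at least one on every
exchange. -/
def GapM : Prop := ∀ (n : ℕ) (P : List Bool → Bool), Fam n P → ∀ K : St n P → St n P → ℝ,
  (∀ A B, 0 ≤ K A B) →
  (∀ A B : St n P, A ≠ B → (∃ i j : ℕ, i < n ∧ j < n ∧ A.1.getD i false = true ∧
    A.1.getD j true = false ∧ B.1 = swap A.1 i j) → 1 ≤ K A B) →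
  ∀ f : St n P → ℝ, ∑ A, ∑ B, (f A - f B) ^ 2 ≤
    Fintype.card (St n P) * ∑ A, ∑ B, K A B * (f A - f B) ^ 2

/-- ES-FIN: masks versus finite sets. -/
def S_FIN : Prop :=
  (∀ (E : Type) [DecidableEq E] (F : Finset (Finset E)), Exch F → Gap F) → GapM

/-- The upper bound for the probability of every state after `pt n` steps. -/
def Cnt : Prop := ∀ (n : ℕ) (P : List Bool → Bool) (A0 : List Bool), Fam n P →
  A0 ∈ (masks n).filter P → ∀ B ∈ (masks n).filter P,
    (2 ^ pm n - 1) * cntW P n A0 B * ((masks n).filter P).length ≤ 2 ^ (pm n + pL n)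

/-- ES-CNT. -/
def S_CNT : Prop := S_MASK → S_MIX → S_KER → S_POW → GapM → Cnt

/-- number of coin sequences of one step from `A` to `B`, by counting -/
def kerN (P : List Bool → Bool) (a : ℕ) (A B : List Bool) : ℕ :=
  ((List.range (2 ^ (2 * a + 1))).filter
    (fun c => decide (move P a A (mask (2 * a + 1) c) = B))).length

/-- one step of the computation of the distribution -/
def dpStep (P : List Bool → Bool) (a : ℕ) (Bs : List (List Bool)) (V : List ℕ) : List ℕ :=
  Bs.map (fun B => ((Bs.zip V).map (fun p => p.2 * kerN P a p.1 B)).sum)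

/-- the distribution (numbers of coin sequences) after `pt n` steps -/
def dp (P : List Bool → Bool) (n : ℕ) (A0 : List Bool) (Bs : List (List Bool)) : List ℕ :=
  (dpStep P (pa n) Bs)^[pt n] (Bs.map (fun B => if B = A0 then 1 else 0))

/-- ES-DP. -/
def S_DP : Prop := S_MASK → S_POW → ∀ (n : ℕ) (P : List Bool → Bool) (A0 : List Bool),
  A0 ∈ (masks n).filter P →
  dp P n A0 ((masks n).filter P) = ((masks n).filter P).map (cntW P n A0)

/-- the weights of the cells of the rare phase -/
def wts (P : List Bool → Bool) (n : ℕ) (A0 : List Bool) (Bs : List (List Bool)) : List ℕ :=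
  (dp P n A0 Bs).map (fun c => 2 ^ (pm n + pL n) - (2 ^ pm n - 1) * c * Bs.length)

/-- all masks of length `n`, if `k ≥ 2 ^ n` -/
def masksB (n k : ℕ) : List (List Bool) :=
  ((List.range k).filter (fun c => decide (c < 2 ^ n))).map (mask n)

/-- **The exact sampler.**  After reading the coins `s` it stops with an output, or asks for one
more coin. -/
def run (P : List Bool → Bool) (n : ℕ) (A0 s : List Bool) : Option (List Bool) :=
  if s.length < pm n + pL n then none
  else if (s.take (pm n)).all (fun b => b) = false then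
    some (walk P (pa n) (pt n) A0 ((s.drop (pm n)).take (pL n)))
  else if (s.drop (pm n + pL n)).length < 2 ^ n then none
  else (cell (wts P n A0 ((masksB n (s.drop (pm n + pL n)).length).filter P))
    (s.drop (pm n + pL n))).map
      (fun j => ((masksB n (s.drop (pm n + pL n)).length).filter P).getD j [])

/-- ES-PROB: the output distribution of the sampler. -/
def S_PROB : Prop := S_MASK → S_CELL → Cnt →
  (∀ (n : ℕ) (P : List Bool → Bool) (A0 : List Bool), A0 ∈ (masks n).filter P →
    dp P n A0 ((masks n).filter P) = ((masks n).filter P).map (cntW P n A0)) →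
  ∀ (n : ℕ) (P : List Bool → Bool) (A0 : List Bool), Fam n P → A0 ∈ (masks n).filter P →
  (∀ s B, run P n A0 s = some B → B ∈ (masks n).filter P) ∧
  (∀ s u B, run P n A0 s = some B → run P n A0 (s ++ u) = some B) ∧
  (∀ B ∈ (masks n).filter P, Filter.Tendsto (fun k : ℕ =>
    ((univ.filter (fun s : Fin k → Bool => run P n A0 (List.ofFn s) = some B)).card : ℝ) / 2 ^ k)
    Filter.atTop (nhds (1 / ((masks n).filter P).length))) ∧
  (∀ k, pm n + pL n ≤ k → ((univ.filter (fun s : Fin k → Bool =>
    run P n A0 (List.ofFn s) = none)).card : ℝ) / 2 ^ k ≤ 1 / 2 ^ (n * n)) ∧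
  (∀ k, ((univ.filter (fun s : Fin (pm n + pL n + 2 ^ n + k) → Bool =>
    run P n A0 (List.ofFn s) = none)).card : ℝ) / 2 ^ (pm n + pL n + 2 ^ n + k) ≤
      2 ^ n / 2 ^ k / 2 ^ (n * n))

/-! ### Running time -/

/-- ES-PW: the parameters and the walk. -/
def S_PW : Prop := ∀ (α : Type) [TEnc α] (Pf : α × List Bool → Bool) (n : α → ℕ)
  (A0 w : α → List Bool), NPC.Poly Pf → UPoly n → NPC.Poly A0 → NPC.Poly w →
  UPoly (fun x => pa (n x)) ∧ UPoly (fun x => 2 ^ (2 * pa (n x) + 1)) ∧
  UPoly (fun x => pm (n x)) ∧ UPoly (fun x => pt (n x)) ∧ UPoly (fun x => pL (n x)) ∧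
  NPC.Poly (fun x => walk (fun A => Pf (x, A)) (pa (n x)) (pt (n x)) (A0 x) (w x))

/-- ES-PDP: the dynamic programme. -/
def S_PDP : Prop := S_PW → ∀ (α : Type) [TEnc α] (Pf : α × List Bool → Bool) (n : α → ℕ)
  (A0 : α → List Bool) (Bs : α → List (List Bool)), NPC.Poly Pf → UPoly n → NPC.Poly A0 →
  NPC.Poly Bs → NPC.Poly (fun x => dp (fun A => Pf (x, A)) (n x) (A0 x) (Bs x))

/-- ES-PCELL: the cell. -/
def S_PCELL : Prop := ∀ (α : Type) [TEnc α] (wt : α → List ℕ) (v : α → List Bool),
  NPC.Poly wt → NPC.Poly v → NPC.Poly (fun x => cell (wt x) (v x))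

/-- ES-PRUN: the sampler. -/
def S_PRUN : Prop := S_MASK → S_PW → S_PDP → S_PCELL →
  ∀ (α : Type) [TEnc α] (Pf : α × List Bool → Bool) (n : α → ℕ) (A0 : α → List Bool),
  NPC.Poly Pf → UPoly n → NPC.Poly A0 →
  NPC.Poly (fun p : α × List Bool => run (fun A => Pf (p.1, A)) (n p.1) (A0 p.1) p.2)

end Pool.Agent.W989.ES
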