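import Pool.Agent.W989.ES.StP

/-!
# Exact sampling of bases: statements, part 3 (simplicial complexes)

`helper989`, project ES (problem MP_d8fb5e_lc).
-/

set_option autoImplicit false

namespace Pool.Agent.W989.ES

open Finset Pool.Agent.NPC

/-- `Δ` is the list of the (nonempty) faces of a finite simplicial complex, without repetitions;
a face is the strictly increasing list of its vertices. -/
structure IsComplex (Δ : List (List ℕ)) : Prop where
  nodup : Δ.Nodup
  sorted : ∀ σ ∈ Δ, σ.Pairwise (· < ·)
  nonempty : [] ∉ Δ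
  down : ∀ σ ∈ Δ, ∀ τ : List ℕ, τ.Sublist σ → τ ≠ [] → τ ∈ Δ

/-- The dimension: the largest number of vertices of a face, minus one. -/
def dim (Δ : List (List ℕ)) : ℕ := (Δ.map List.length).foldr max 0 - 1

/-- The boundary of an oriented simplex, as a function on the faces. -/
noncomputable def bdry (σ : List ℕ) : List ℕ → ℚ := fun τ =>
  ∑ i ∈ range σ.length, if σ.eraseIdx i = τ then (-1 : ℚ) ^ i else 0

/-- `Υ` (a list of faces) is a spanning tree of the complex `Δ`: it contains all faces of dimension
less than `dim Δ`, and the boundaries of its faces of dimension `dim Δ` form a basis of the space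
spanned by the boundaries of all faces of dimension `dim Δ`. -/
def IsTree (Δ Υ : List (List ℕ)) : Prop :=
  Υ.Sublist Δ ∧ (∀ σ ∈ Δ, σ.length ≤ dim Δ → σ ∈ Υ) ∧
  LinearIndependent ℚ (fun σ : {σ // σ ∈ Υ ∧ σ.length = dim Δ + 1} => bdry σ.1) ∧
  ∀ σ ∈ Δ, σ.length = dim Δ + 1 →
    bdry σ ∈ Submodule.span ℚ (bdry '' {τ | τ ∈ Υ ∧ τ.length = dim Δ + 1})

/-- The faces of the top dimension. -/
def tops (Δ : List (List ℕ)) : List (List ℕ) := Δ.filter (fun σ => decide (σ.length = dim Δ + 1))

/-- The elements of a list selected by a mask. -/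
def sel (l : List (List ℕ)) (A : List Bool) : List (List ℕ) :=
  ((l.zip A).filter (fun p => p.2)).map (fun p => p.1)

/-- `ind` tests linear independence of boundaries. -/
def Tests (ind : List (List ℕ) → Bool) : Prop := ∀ l : List (List ℕ), l.Nodup →
  (ind l = true ↔ LinearIndependent ℚ (fun σ : {σ // σ ∈ l} => bdry σ.1))

/-- ES-IND: linear independence of boundaries can be tested in polynomial time. -/
def S_IND : Prop := ∃ ind : List (List ℕ) → Bool, NPC.Poly ind ∧ Tests ind

/-- The bases: maximal independent masks. -/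
def PB (ind : List (List ℕ) → Bool) (l : List (List ℕ)) (A : List Bool) : Bool :=
  ind (sel l A) && (List.range l.length).all (fun j => A.getD j true || !ind (sel l (A.set j true)))

/-- The greedy basis. -/
def greedy (ind : List (List ℕ) → Bool) (l : List (List ℕ)) : List Bool :=
  (List.range l.length).foldl
    (fun A j => if ind (sel l (A.set j true)) = true then A.set j true else A)
    (List.replicate l.length false)

/-- ES-FAM: the bases form a matroid. -/
def S_FAM : Prop := ∀ ind : List (List ℕ) → Bool, Tests ind → ∀ l : List (List ℕ), l.Nodup →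
  Fam l.length (PB ind l) ∧
  (∀ A : List Bool, A.length = l.length → (PB ind l A = true ↔
    LinearIndependent ℚ (fun σ : {σ // σ ∈ sel l A} => bdry σ.1) ∧
    ∀ σ ∈ l, bdry σ ∈ Submodule.span ℚ (bdry '' {τ | τ ∈ sel l A}))) ∧
  (greedy ind l).length = l.length ∧ PB ind l (greedy ind l) = true

/-- The subcomplex with all lower-dimensional faces, and the selected top faces. -/
def out (Δ : List (List ℕ)) (A : List Bool) : List (List ℕ) :=
  Δ.filter (fun σ => decide (σ.length ≤ dim Δ) || decide (σ ∈ sel (tops Δ) A))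

/-- ES-OUT: masks and spanning trees. -/
def S_OUT : Prop := ∀ Δ : List (List ℕ), Δ.Nodup →
  (∀ A : List Bool, A.length = (tops Δ).length →
    (LinearIndependent ℚ (fun σ : {σ // σ ∈ sel (tops Δ) A} => bdry σ.1) ∧
      ∀ σ ∈ tops Δ, bdry σ ∈ Submodule.span ℚ (bdry '' {τ | τ ∈ sel (tops Δ) A})) →
    IsTree Δ (out Δ A)) ∧
  (∀ Υ, IsTree Δ Υ → ∃ A : List Bool, A.length = (tops Δ).length ∧ out Δ A = Υ ∧
    LinearIndependent ℚ (fun σ : {σ // σ ∈ sel (tops Δ) A} => bdry σ.1) ∧
      ∀ σ ∈ tops Δ, bdry σ ∈ Submodule.span ℚ (bdry '' {τ | τ ∈ sel (tops Δ) A})) ∧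
  (∀ A A' : List Bool, A.length = (tops Δ).length → A'.length = (tops Δ).length →
    out Δ A = out Δ A' → A = A')

/-- ES-PS: running times of the simplicial functions. -/
def S_PS : Prop := ∀ (α : Type) [TEnc α] (ind : List (List ℕ) → Bool) (Δ : α → List (List ℕ))
  (A : α → List Bool), NPC.Poly ind → NPC.Poly Δ → NPC.Poly A →
  NPC.Poly (fun x => dim (Δ x)) ∧ NPC.Poly (fun x => tops (Δ x)) ∧
  UPoly (fun x => (tops (Δ x)).length) ∧
  NPC.Poly (fun x => PB ind (tops (Δ x)) (A x)) ∧
  NPC.Poly (fun x => greedy ind (tops (Δ x))) ∧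
  NPC.Poly (fun x => out (Δ x) (A x))

end Pool.Agent.W989.ES
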